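import Pool.Agent.KO.Xb.St

/-!
# Block Xb, B1: the local root
-/

set_option autoImplicit false

namespace Pool.Agent.KO

open Set Filter Topology

theorem xb1 : SpRt := by
  intro m wt i p hp hw
  have hw' : (wt i : ℂ) ≠ 0 := by exact_mod_cast hw
  refine ⟨fun p' => Complex.exp (Complex.log (p i / p' i) / (wt i : ℂ)), ?_, ?_, ?_, ?_, ?_⟩
  · have h1 : AnalyticAt ℂ (fun p' : Fin m → ℂ => p' i) p :=
      (ContinuousLinearMap.proj (R := ℂ) (φ := fun _ : Fin m => ℂ) i).analyticAt p
    have h2 : AnalyticAt ℂ (fun p' : Fin m → ℂ => p i / p' i) p := analyticAt_const.div h1 hp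
    have h3 : AnalyticAt ℂ (fun p' : Fin m → ℂ => Complex.log (p i / p' i)) p := by
      refine h2.clog ?_
      rw [div_self hp]
      exact Complex.one_mem_slitPlane
    exact (h3.div analyticAt_const hw').cexp
  · simp [div_self hp]
  · exact fun p' => Complex.exp_ne_zero _
  · intro p' h
    simp [h, div_self hp]
  · have h1 : ∀ᶠ p' in 𝓝 p, p' i ≠ 0 := by
      have hc : Continuous fun p' : Fin m → ℂ => p' i := continuous_apply i
      exact hc.continuousAt.eventually_ne hp
    filter_upwards [h1] with p' hp'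
    unfold dact
    rw [← Complex.exp_int_mul, mul_div_cancel₀ _ hw', Complex.exp_log (div_ne_zero hp hp'),
      div_mul_cancel₀ _ hp']

end Pool.Agent.KO
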