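import Pool.Agent.KO.Xb.St

/-!
# Local structure of `X` at the points of the flip chart
-/

set_option autoImplicit false

namespace Pool.Agent.KO

open Set Filter Topology

theorem xb10_open (F : Flip) : IsOpen (MS2 F) := by
  have h : MS2 F = Dom F.ρ ∩ ({q | q 0 ≠ 0} ∪ ({q | q 1 ≠ 0} ∪ {q | q 2 ≠ 0})) := by
    ext q
    rfl
  rw [h]
  have hj : ∀ j : Fin 5, IsOpen {q : Fin 5 → ℂ | q j ≠ 0} := fun j =>
    isOpen_ne_fun (continuous_apply j) continuous_const
  exact (isOpen_Dom F.ρ).inter ((hj 0).union ((hj 1).union (hj 2)))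

/-- The coordinates of the slice. -/
def xb10_chi (i : Fin 5) (q : Fin 5 → ℂ) (q' : Fin 5 → ℂ) : Fin 4 → ℂ :=
  fun k => q' (i.succAbove k) - q (i.succAbove k)

/-- The slice `q' i = q i`. -/
def xb10_psi (i : Fin 5) (q : Fin 5 → ℂ) (v : Fin 4 → ℂ) : Fin 5 → ℂ :=
  Fin.insertNth (α := fun _ => ℂ) i (q i) (fun k => q (i.succAbove k) + v k)

theorem xb10_psi_same (i : Fin 5) (q : Fin 5 → ℂ) (v : Fin 4 → ℂ) : xb10_psi i q v i = q i := by
  unfold xb10_psi
  exact Fin.insertNth_apply_same _ _ _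

theorem xb10_psi_succ (i : Fin 5) (q : Fin 5 → ℂ) (v : Fin 4 → ℂ) (k : Fin 4) :
    xb10_psi i q v (i.succAbove k) = q (i.succAbove k) + v k := by
  unfold xb10_psi
  exact Fin.insertNth_apply_succAbove _ _ _ _

theorem xb10_ext {i : Fin 5} {x y : Fin 5 → ℂ} (h : x i = y i)
    (h' : ∀ k, x (i.succAbove k) = y (i.succAbove k)) : x = y := by
  funext j
  rcases Fin.eq_self_or_eq_succAbove i j with rfl | ⟨k, rfl⟩
  · exact h
  · exact h' k

theorem xb10_chi_an (i : Fin 5) (q p : Fin 5 → ℂ) : AnalyticAt ℂ (xb10_chi i q) p := by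
  refine analyticAt_pi_iff.2 fun k => ?_
  exact ((ContinuousLinearMap.proj (R := ℂ) (φ := fun _ : Fin 5 => ℂ)
    (i.succAbove k)).analyticAt p).sub analyticAt_const

theorem xb10_psi_an (i : Fin 5) (q : Fin 5 → ℂ) (v : Fin 4 → ℂ) :
    AnalyticAt ℂ (xb10_psi i q) v := by
  refine analyticAt_pi_iff.2 fun j => ?_
  rcases Fin.eq_self_or_eq_succAbove i j with rfl | ⟨k, rfl⟩
  · have : (fun x => xb10_psi j q x j) = fun _ => q j := funext fun x => xb10_psi_same j q x
    rw [this]
    exact analyticAt_const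
  · have : (fun x => xb10_psi i q x (i.succAbove k)) = fun x => q (i.succAbove k) + x k :=
      funext fun x => xb10_psi_succ i q x k
    rw [this]
    exact analyticAt_const.add ((ContinuousLinearMap.proj (R := ℂ) (φ := fun _ : Fin 4 => ℂ)
      k).analyticAt v)

theorem xb10 (F : Flip) (hpr : SpPres2 F) (hsl : SpSlice) (hst : SpStab) : SpLq2 F := by
  intro q hq
  obtain ⟨i, hw, hqi⟩ : ∃ i : Fin 5, wgt' i ≠ 0 ∧ q i ≠ 0 := by
    rcases hq.2 with h | h | h
    · exact ⟨0, by decide, h⟩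
    · exact ⟨1, by decide, h⟩
    · exact ⟨2, by decide, h⟩
  obtain ⟨b, hb1, hb⟩ := hst 5 wgt' q i hqi hw
  have hψ0 : xb10_psi i q 0 = q := by
    refine xb10_ext (i := i) (xb10_psi_same i q 0) fun k => ?_
    rw [xb10_psi_succ]
    simp
  have hχψ : ∀ v, xb10_chi i q (xb10_psi i q v) = v := by
    intro v
    funext k
    show xb10_psi i q v (i.succAbove k) - q (i.succAbove k) = v k
    rw [xb10_psi_succ]
    ring
  obtain ⟨r, hr, -⟩ := hsl F.Sp F.O 5 wgt' (MS2 F) F.p2 hpr 4 b (fun k => wgt' (i.succAbove k))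
    i q hb1 hq hqi hw hb (xb10_chi i q) (xb10_psi i q) (xb10_chi_an i q q)
    (by funext k; exact sub_self _) (xb10_psi_an i q 0) hψ0 (by
      have hc : ContinuousAt (xb10_psi i q) 0 := (xb10_psi_an i q 0).continuousAt
      have hm : MS2 F ∈ 𝓝 (xb10_psi i q 0) := by
        rw [hψ0]
        exact (xb10_open F).mem_nhds hq
      filter_upwards [hc hm] with v hv
      exact ⟨hv, xb10_psi_same i q v, hχψ v⟩) (by
      refine Eventually.of_forall fun p' _ hp' => ?_
      refine xb10_ext (i := i) ?_ fun k => ?_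
      · rw [xb10_psi_same, hp']
      · rw [xb10_psi_succ]
        show q (i.succAbove k) + (p' (i.succAbove k) - q (i.succAbove k)) = p' (i.succAbove k)
        ring) (by
      intro ζ hζ
      have hζ0 : ζ ≠ 0 := by
        rintro rfl
        rw [zero_pow (by omega)] at hζ
        exact zero_ne_one hζ
      have hfix := (hb ζ hζ0).2 hζ
      refine Eventually.of_forall fun p' => ?_
      funext k
      have hk : ζ ^ wgt' (i.succAbove k) * q (i.succAbove k) = q (i.succAbove k) :=
        congrFun hfix (i.succAbove k)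
      show ζ ^ wgt' (i.succAbove k) * p' (i.succAbove k) - q (i.succAbove k) =
        ζ ^ wgt' (i.succAbove k) * (p' (i.succAbove k) - q (i.succAbove k))
      rw [mul_sub, hk])
  exact ⟨b, _, _, r, hr⟩

end Pool.Agent.KO
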