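import Pool.Agent.KO.Xb.St
import Pool.Agent.KO.Q.Chart

/-!
# Block Xb, row B11: quotients are complex spaces
-/

set_option autoImplicit false

namespace Pool.Agent.KO

open Set Filter Topology

/-- The natural weights with the same action of the `b`-th roots of unity. -/
def xb11_nat {n : ℕ} (b : ℕ) (β : Fin n → ℤ) : Fin n → ℕ := fun i => (β i % (b : ℤ)).toNat

theorem xb11_rot {n b : ℕ} (β : Fin n → ℤ) (hb : 1 ≤ b) {ζ : ℂ} (hζ : ζ ^ b = 1)
    (v : Fin n → ℂ) : dact β ζ v = Q.rot (xb11_nat b β) ζ v := by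
  have hb' : (b : ℤ) ≠ 0 := by exact_mod_cast (by omega : b ≠ 0)
  have hζ0 : ζ ≠ 0 := by
    rintro rfl
    rw [zero_pow (by omega)] at hζ
    exact zero_ne_one hζ
  funext i
  change ζ ^ β i * v i = ζ ^ (β i % (b : ℤ)).toNat * v i
  congr 1
  have h1 : (((β i % (b : ℤ)).toNat : ℕ) : ℤ) = β i % (b : ℤ) :=
    Int.toNat_of_nonneg (Int.emod_nonneg _ hb')
  have h2 : β i = (b : ℤ) * (β i / (b : ℤ)) + β i % (b : ℤ) := by
    rw [add_comm]; exact (Int.emod_add_mul_ediv _ _).symm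
  rw [← zpow_natCast, h1]
  conv_lhs => rw [h2]
  rw [zpow_add₀ hζ0, zpow_mul, zpow_natCast, hζ, one_zpow, one_mul]

theorem xb11_rot_norm {n b : ℕ} (γ : Fin n → ℕ) (hb : 1 ≤ b) {ζ : ℂ} (hζ : ζ ^ b = 1)
    (v : Fin n → ℂ) : ‖Q.rot γ ζ v‖ = ‖v‖ := by
  have h1 : ‖ζ‖ = 1 := Complex.norm_eq_one_of_pow_eq_one hζ (by omega)
  have h2 : ∀ i, ‖Q.rot γ ζ v i‖ = ‖v i‖ := by
    intro i
    change ‖ζ ^ γ i * v i‖ = _
    rw [norm_mul, norm_pow, h1, one_pow, one_mul]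
  apply le_antisymm
  · rw [pi_norm_le_iff_of_nonneg (norm_nonneg _)]
    intro i
    rw [h2]
    exact norm_le_pi_norm v i
  · rw [pi_norm_le_iff_of_nonneg (norm_nonneg _)]
    intro i
    rw [← h2]
    exact norm_le_pi_norm (Q.rot γ ζ v) i

/-- B11. Quotients are complex spaces. -/
theorem xb11 (hfib : Q.SpFib) (hprop : Q.SpProp) (hfun : Q.SpFun) (hset : Q.SpSet) : SpQch := by
  intro X _ O n b β x σ r hn h
  have : Nonempty (Fin n) := ⟨⟨0, by omega⟩⟩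
  have hb := h.b_pos
  set B : Set (Fin n → ℂ) := Metric.ball 0 r with hB
  have hBo : IsOpen B := Metric.isOpen_ball
  have hinv : ∀ ζ : ℂ, ζ ^ b = 1 → ∀ q ∈ B, Q.rot (xb11_nat b β) ζ q ∈ B := by
    intro ζ hζ q hq
    rw [hB, mem_ball_zero_iff] at hq ⊢
    rw [xb11_rot_norm _ hb hζ]
    exact hq
  have hAn : IsAn (stdO n) B B := by
    refine ⟨Subset.rfl, fun y hy => ⟨B, hBo, hy, 0, fun i => i.elim0, fun i => i.elim0, ?_⟩⟩
    ext z
    constructor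
    · rintro ⟨hz, -⟩
      exact ⟨hz, fun i => i.elim0⟩
    · rintro ⟨hz, -⟩
      exact ⟨hz, hz⟩
  -- the neighbourhood filters
  have hmap : ∀ v : B, map (fun q : B => σ q) (𝓝 v) = 𝓝 (σ v) := by
    intro v
    have h1 : map (Subtype.val : B → Fin n → ℂ) (𝓝 v) = 𝓝 (v : Fin n → ℂ) :=
      map_nhds_subtype_coe_eq_nhds v.2 (hBo.mem_nhds v.2)
    rw [← h.nhds v v.2, ← h1, map_map]
    rfl
  have hc : Continuous (fun q : B => σ q) := by
    rw [continuous_iff_continuousAt]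
    intro v
    exact (hmap v).le
  have ho : IsOpenMap (fun q : B => σ q) := by
    rw [isOpenMap_iff_nhds_le]
    intro v
    exact (hmap v).ge
  have hπ : ∀ q q' : B, (fun q : B => σ q) q = (fun q : B => σ q) q' ↔
      ∃ ζ : ℂ, ζ ^ b = 1 ∧ (q' : Fin n → ℂ) = Q.rot (xb11_nat b β) ζ q := by
    intro q q'
    change σ q = σ q' ↔ _
    rw [h.fib q q.2 q' q'.2]
    constructor
    · rintro ⟨ζ, hζ, he⟩
      exact ⟨ζ, hζ, by rw [he, xb11_rot β hb hζ]⟩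
    · rintro ⟨ζ, hζ, he⟩
      exact ⟨ζ, hζ, by rw [he, xb11_rot β hb hζ]⟩
  have hO : ∀ (p : B) (f : X → ℂ), O f ((fun q : B => σ q) p) ↔
      ∃ F : (Fin n → ℂ) → ℂ, AnalyticAt ℂ F p ∧ ∀ᶠ q in 𝓝 p, f ((fun q : B => σ q) q) = F q := by
    intro p f
    change O f (σ p) ↔ _
    rw [h.hol p p.2 f]
    constructor
    · intro h1
      exact ⟨f ∘ σ, h1, Eventually.of_forall fun q => rfl⟩
    · rintro ⟨F, hF, he⟩
      refine hF.congr ?_
      have h1 : map (Subtype.val : B → Fin n → ℂ) (𝓝 p) = 𝓝 (p : Fin n → ℂ) :=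
        map_nhds_subtype_coe_eq_nhds p.2 (hBo.mem_nhds p.2)
      rw [EventuallyEq, ← h1, eventually_map]
      filter_upwards [he] with q hq
      exact hq.symm
  obtain ⟨c, hch, -⟩ := Q.chart hfib hprop hfun hset O b hb (xb11_nat b β) B B hBo hinv hinv hAn
    (fun q : B => σ q) hc ho hπ hO
  refine ⟨_, _, c, _, ?_, hch⟩
  refine ⟨⟨0, ?_⟩, h.base⟩
  rw [hB, mem_ball_zero_iff, norm_zero]
  exact h.r_pos

end Pool.Agent.KO
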