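import Pool.Agent.KO.Xb.St

/-!
# Block Xb, row B2: separation by the stabilizer
-/

set_option autoImplicit false

namespace Pool.Agent.KO

open Set Filter Topology

theorem xb2_zpow {l : ℂ} {k : ℤ} (h : l ^ k = 1) : l ^ k.natAbs = 1 := by
  rcases Int.natAbs_eq k with hk | hk
  · rw [hk, zpow_natCast] at h
    exact h
  · rw [hk, zpow_neg, zpow_natCast] at h
    exact inv_eq_one.1 h

theorem xb2_finite {a : ℕ} (ha : 0 < a) : {l : ℂ | l ^ a = 1}.Finite := by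
  refine (Polynomial.nthRootsFinset a (1 : ℂ)).finite_toSet.subset fun l hl => ?_
  exact (Polynomial.mem_nthRootsFinset ha (1 : ℂ)).2 hl

theorem xb2_cont {m : ℕ} (wt : Fin m → ℤ) (l : ℂ) : Continuous (dact wt l) := by
  refine continuous_pi fun i => ?_
  unfold dact
  fun_prop

theorem xb2_sep {m : ℕ} (wt : Fin m → ℤ) {p : Fin m → ℂ} {l : ℂ} (h : dact wt l p ≠ p) :
    ∃ N ∈ 𝓝 p, ∀ p' ∈ N, dact wt l p' ∉ N := by
  obtain ⟨U, V, hU, hV, hpU, hpV, hd⟩ := t2_separation h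
  refine ⟨V ∩ dact wt l ⁻¹' U, inter_mem (hV.mem_nhds hpV)
    ((hU.preimage (xb2_cont wt l)).mem_nhds hpU), ?_⟩
  rintro p' ⟨-, h2⟩ ⟨h3, -⟩
  exact Set.disjoint_left.1 hd h2 h3

theorem xb2 : SpSep := by
  intro m b wt i p hb hp hw hst
  have ha : 0 < (wt i).natAbs := Int.natAbs_pos.2 hw
  have hN : ∀ l : ℂ, ∃ N ∈ 𝓝 p, l ^ (wt i).natAbs = 1 → l ^ b ≠ 1 →
      ∀ p' ∈ N, dact wt l p' ∉ N := by
    intro l
    by_cases h1 : l ^ (wt i).natAbs = 1
    · by_cases h2 : l ^ b = 1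
      · exact ⟨univ, univ_mem, fun _ h => absurd h2 h⟩
      · have hl : l ≠ 0 := by
          rintro rfl
          rw [zero_pow ha.ne'] at h1
          exact zero_ne_one h1
        obtain ⟨N, hN, h⟩ := xb2_sep wt (fun h => h2 ((hst l hl).1 h) : dact wt l p ≠ p)
        exact ⟨N, hN, fun _ _ => h⟩
    · exact ⟨univ, univ_mem, fun h => absurd h h1⟩
  choose N hN1 hN2 using hN
  have hfin := xb2_finite ha
  have hmem : (⋂ l ∈ {l : ℂ | l ^ (wt i).natAbs = 1}, N l) ∈ 𝓝 p :=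
    (biInter_mem hfin).2 fun l _ => hN1 l
  have hi : {p' : Fin m → ℂ | p' i ≠ 0} ∈ 𝓝 p :=
    (isOpen_ne_fun (continuous_apply i) continuous_const).mem_nhds hp
  refine ⟨_, inter_mem hmem hi, ?_⟩
  rintro p' ⟨h1, h2⟩ l hl ⟨h3, -⟩ h4
  have h5 : l ^ wt i = 1 := by
    have h6 : l ^ wt i * p' i = 1 * p' i := by
      rw [one_mul]
      exact h4
    exact mul_right_cancel₀ h2 h6
  have h6 : l ^ (wt i).natAbs = 1 := xb2_zpow h5
  by_contra h7
  exact hN2 l h6 h7 p' (mem_iInter₂.1 h1 l h6) (mem_iInter₂.1 h3 l h6)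

end Pool.Agent.KO
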