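import Pool.Agent.KO.Xb.St

/-!
# Block Xb, row B3: the slice lemma
-/

set_option autoImplicit false

namespace Pool.Agent.KO

open Set Filter Topology

theorem xb3_one {m : ℕ} (wt : Fin m → ℤ) (p : Fin m → ℂ) : dact wt 1 p = p := by
  funext i
  simp [dact]

theorem xb3_cont {m : ℕ} (wt : Fin m → ℤ) (l : ℂ) : Continuous (dact wt l) := by
  refine continuous_pi fun i => ?_
  exact continuous_const.mul (continuous_apply i)

theorem xb3_an {m : ℕ} (wt : Fin m → ℤ) (lam : (Fin m → ℂ) → ℂ) (q : Fin m → ℂ)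
    (h : AnalyticAt ℂ lam q) (h0 : lam q ≠ 0) :
    AnalyticAt ℂ (fun p => dact wt (lam p) p) q := by
  refine analyticAt_pi_iff.2 fun i => ?_
  exact (h.zpow h0).mul ((ContinuousLinearMap.proj (R := ℂ) (φ := fun _ : Fin m => ℂ)
    i).analyticAt q)

theorem xb3_roots {b : ℕ} (hb : 1 ≤ b) {α : Type} {F : Filter α} {P : ℂ → α → Prop}
    (h : ∀ ζ : ℂ, ζ ^ b = 1 → ∀ᶠ x in F, P ζ x) :
    ∀ᶠ x in F, ∀ ζ : ℂ, ζ ^ b = 1 → P ζ x := by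
  have h1 : ∀ᶠ x in F, ∀ ζ ∈ Polynomial.nthRootsFinset b (1 : ℂ), P ζ x :=
    (Filter.eventually_all_finset _).2 fun ζ hζ =>
      h ζ ((Polynomial.mem_nthRootsFinset hb 1).1 hζ)
  filter_upwards [h1] with x hx ζ hζ
  exact hx ζ ((Polynomial.mem_nthRootsFinset hb 1).2 hζ)

/-- The slice lemma at one point `v` of the slice. -/
theorem xb3_point {X : Type} [TopologicalSpace X] {O : Shf X} {m n : ℕ} {wt : Fin m → ℤ}
    {M : Set (Fin m → ℂ)} {π : (Fin m → ℂ) → X} (hP : Pres O wt M π) {i : Fin m}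
    {c : ℂ} {χ : (Fin m → ℂ) → Fin n → ℂ} {ψ : (Fin n → ℂ) → Fin m → ℂ}
    {lam : (Fin m → ℂ) → ℂ} {v : Fin n → ℂ} (hvM : ψ v ∈ M) (hχv : χ (ψ v) = v)
    (hψ : AnalyticAt ℂ ψ v) (hψM : ∀ᶠ u in 𝓝 v, ψ u ∈ M) (hlam : AnalyticAt ℂ lam (ψ v))
    (hlam0 : ∀ p', lam p' ≠ 0) (hlam1 : lam (ψ v) = 1) (hχ : AnalyticAt ℂ χ (ψ v))
    (hχψ : ∀ᶠ q in 𝓝 (ψ v), q ∈ M → q i = c → ψ (χ q) = q)
    (hr : ∀ᶠ q in 𝓝 (ψ v), dact wt (lam q) q i = c) :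
    map (π ∘ ψ) (𝓝 v) = 𝓝 (π (ψ v)) ∧
      ∀ f : X → ℂ, O f (π (ψ v)) ↔ AnalyticAt ℂ (f ∘ (π ∘ ψ)) v := by
  have hψt : Tendsto ψ (𝓝 v) (𝓝[M] (ψ v)) :=
    tendsto_nhdsWithin_iff.2 ⟨hψ.continuousAt, hψM⟩
  have hRan : AnalyticAt ℂ (fun q => dact wt (lam q) q) (ψ v) :=
    xb3_an wt lam (ψ v) hlam (hlam0 _)
  have hRv : dact wt (lam (ψ v)) (ψ v) = ψ v := by
    rw [hlam1, xb3_one]
  have hRt : Tendsto (fun q => dact wt (lam q) q) (𝓝 (ψ v)) (𝓝 (ψ v)) := by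
    have h1 := hRan.continuousAt.tendsto
    simp only [hRv] at h1
    exact h1
  have hχR : AnalyticAt ℂ (fun q => χ (dact wt (lam q) q)) (ψ v) := by
    have h1 : AnalyticAt ℂ χ ((fun q => dact wt (lam q) q) (ψ v)) := by
      show AnalyticAt ℂ χ (dact wt (lam (ψ v)) (ψ v))
      rw [hRv]
      exact hχ
    exact AnalyticAt.comp' h1 hRan
  have hχRv : χ (dact wt (lam (ψ v)) (ψ v)) = v := by
    rw [hRv, hχv]
  have hχRt : Tendsto (fun q => χ (dact wt (lam q) q)) (𝓝 (ψ v)) (𝓝 v) := by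
    have h1 := hχR.continuousAt.tendsto
    simp only [hχRv] at h1
    exact h1
  have hπ : ∀ᶠ q in 𝓝[M] (ψ v), π q = (π ∘ ψ) (χ (dact wt (lam q) q)) := by
    have h1 : ∀ᶠ q in 𝓝 (ψ v), dact wt (lam q) q ∈ M → dact wt (lam q) q i = c →
        ψ (χ (dact wt (lam q) q)) = dact wt (lam q) q := hRt.eventually hχψ
    filter_upwards [nhdsWithin_le_nhds h1, nhdsWithin_le_nhds hr, self_mem_nhdsWithin]
      with q hq1 hq2 hqM
    obtain ⟨h2, h3⟩ := hP.inv q hqM (lam q) (hlam0 q)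
    show π q = π (ψ (χ (dact wt (lam q) q)))
    rw [hq1 h2 hq2, h3]
  refine ⟨le_antisymm ?_ ?_, fun f => ?_⟩
  · rw [← hP.nhds (ψ v) hvM, ← Filter.map_map]
    exact Filter.map_mono hψt
  · rw [← hP.nhds (ψ v) hvM, Filter.map_congr hπ]
    have h1 : map (fun q => (π ∘ ψ) (χ (dact wt (lam q) q))) (𝓝[M] (ψ v)) =
        map (π ∘ ψ) (map (fun q => χ (dact wt (lam q) q)) (𝓝[M] (ψ v))) := by
      rw [Filter.map_map]
      rfl
    rw [h1]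
    exact Filter.map_mono (hχRt.mono_left nhdsWithin_le_nhds)
  · rw [hP.hol (ψ v) hvM f]
    constructor
    · rintro ⟨H, hH, hfH⟩
      have h1 : AnalyticAt ℂ (fun u => H (ψ u)) v := AnalyticAt.comp' hH hψ
      refine h1.congr ?_
      filter_upwards [hψt.eventually hfH] with u hu
      exact hu.symm
    · intro hf
      refine ⟨fun q => (f ∘ (π ∘ ψ)) (χ (dact wt (lam q) q)), ?_, ?_⟩
      · have h1 : AnalyticAt ℂ (f ∘ (π ∘ ψ)) ((fun q => χ (dact wt (lam q) q)) (ψ v)) := by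
          show AnalyticAt ℂ (f ∘ (π ∘ ψ)) (χ (dact wt (lam (ψ v)) (ψ v)))
          rw [hχRv]
          exact hf
        exact AnalyticAt.comp' h1 hχR
      · filter_upwards [hπ] with q hq
        show f (π q) = f ((π ∘ ψ) (χ (dact wt (lam q) q)))
        rw [hq]

theorem xb3 (hrt : SpRt) (hsep : SpSep) : SpSlice := by
  intro X _ O m wt M π hP n b β i p hb hpM hpi hwi hst χ ψ hχ hχp hψ hψ0 hψM hψχ heq
  obtain ⟨lam, hlam, hlam1, hlam0, hlami, hlamr⟩ := hrt m wt i p hpi hwi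
  obtain ⟨N, hN, hsepN⟩ := hsep m b wt i p hb hpi hwi hst
  have hz0 : ∀ ζ : ℂ, ζ ^ b = 1 → ζ ≠ 0 := by
    intro ζ h1 h2
    rw [h2, zero_pow (by omega)] at h1
    exact zero_ne_one h1
  have hzp : ∀ ζ : ℂ, ζ ^ b = 1 → dact wt ζ p = p := fun ζ h => (hst ζ (hz0 ζ h)).2 h
  have hE6 : ∀ᶠ q in 𝓝 p, ∀ ζ : ℂ, ζ ^ b = 1 → χ (dact wt ζ q) = dact β ζ (χ q) :=
    xb3_roots hb heq
  have hE7 : ∀ᶠ q in 𝓝 p, ∀ ζ : ℂ, ζ ^ b = 1 →
      (dact wt ζ q ∈ M → dact wt ζ q i = p i → ψ (χ (dact wt ζ q)) = dact wt ζ q) := by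
    refine xb3_roots hb fun ζ hζ => ?_
    have h1 : Tendsto (dact wt ζ) (𝓝 p) (𝓝 p) := by
      have h2 := (xb3_cont wt ζ).tendsto p
      rwa [hzp ζ hζ] at h2
    exact h1.eventually hψχ
  have hE := (((hlam.eventually_analyticAt.and hχ.eventually_analyticAt).and
    (eventually_eventually_nhds.2 hψχ)).and ((eventually_eventually_nhds.2 hlamr).and
      (Filter.eventually_of_mem hN fun q hq => hq))).and (hE6.and hE7)
  have hψc : Tendsto ψ (𝓝 0) (𝓝 p) := by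
    have h1 := hψ.continuousAt.tendsto
    rwa [hψ0] at h1
  have hV := ((hψM.and (eventually_eventually_nhds.2 hψM)).and
    hψ.eventually_analyticAt).and (hψc.eventually hE)
  obtain ⟨r, hr0, hr⟩ := Metric.eventually_nhds_iff_ball.1 hV
  have hmem : ∀ v ∈ Metric.ball (0 : Fin n → ℂ) r, ψ v ∈ M ∧ ψ v i = p i ∧ χ (ψ v) = v :=
    fun v hv => (hr v hv).1.1.1
  have hpt : ∀ v ∈ Metric.ball (0 : Fin n → ℂ) r, map (π ∘ ψ) (𝓝 v) = 𝓝 (π (ψ v)) ∧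
      ∀ f : X → ℂ, O f (π (ψ v)) ↔ AnalyticAt ℂ (f ∘ (π ∘ ψ)) v := by
    intro v hv
    obtain ⟨⟨⟨⟨h1, h2, h3⟩, h4⟩, h5⟩, ⟨⟨⟨h6, h7⟩, h8⟩, ⟨h9, h10⟩⟩, h11, h12⟩ := hr v hv
    exact xb3_point hP h1 h3 h5 (h4.mono fun u hu => hu.1) h6 hlam0 (hlami _ h2) h7 h8 h9
  refine ⟨r, ⟨hb, hr0, ?_, fun v hv => (hpt v hv).1, ?_, fun v hv => (hpt v hv).2⟩,
    fun v hv => ⟨(hmem v hv).1, (hmem v hv).2.2⟩⟩
  · show π (ψ 0) = π p
    rw [hψ0]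
  · intro v hv v' hv'
    obtain ⟨⟨⟨⟨h1, h2, h3⟩, h4⟩, h5⟩, ⟨⟨⟨h6, h7⟩, h8⟩, ⟨h9, h10⟩⟩, h11, h12⟩ := hr v hv
    obtain ⟨⟨⟨⟨k1, k2, k3⟩, k4⟩, k5⟩, ⟨⟨⟨k6, k7⟩, k8⟩, ⟨k9, k10⟩⟩, k11, k12⟩ := hr v' hv'
    constructor
    · intro h
      obtain ⟨l, hl, hl1⟩ := hP.orb (ψ v) h1 (ψ v') k1 h
      have h13 : l ^ b = 1 := by
        refine hsepN (ψ v) h10 l hl ?_ ?_
        · rw [← hl1]
          exact k10
        · rw [← hl1, k2, h2]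
      refine ⟨l, h13, ?_⟩
      rw [← k3, hl1, h11 l h13, h3]
    · rintro ⟨ζ, hζ, rfl⟩
      obtain ⟨h13, h14⟩ := hP.inv (ψ v) h1 ζ (hz0 ζ hζ)
      have h15 : dact wt ζ (ψ v) i = p i := by
        have h16 := congrFun (hzp ζ hζ) i
        simp only [dact] at h16 ⊢
        rw [h2]
        exact h16
      have h17 := h12 ζ hζ h13 h15
      rw [h11 ζ hζ, h3] at h17
      show π (ψ v) = π (ψ (dact β ζ v))
      rw [h17, h14]

end Pool.Agent.KO
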