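import Pool.Agent.KO.Xb.St

/-!
# Project KO, block Xb, row B4: stabilizers of diagonal actions (helper40)
-/

set_option autoImplicit false
set_option maxHeartbeats 400000

namespace Pool.Agent.KO

open Set Filter Topology

theorem xb4_natAbs (l : ℂ) (n : ℤ) : l ^ n = 1 ↔ l ^ n.natAbs = 1 := by
  rcases Int.natAbs_eq n with h | h
  · conv_lhs => rw [h]
    rw [zpow_natCast]
  · conv_lhs => rw [h]
    rw [zpow_neg, zpow_natCast, inv_eq_one]

theorem xb4 : SpStab := by
  classical
  intro m wt p i hpi hwi
  set S : Finset (Fin m) := Finset.univ.filter fun k => p k ≠ 0 with hS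
  have hiS : i ∈ S := by
    rw [hS, Finset.mem_filter]
    exact ⟨Finset.mem_univ i, hpi⟩
  refine ⟨S.gcd fun k => (wt k).natAbs, ?_, ?_⟩
  · rw [Nat.one_le_iff_ne_zero]
    intro h0
    have := (Finset.gcd_eq_zero_iff.1 h0) i hiS
    exact hwi (Int.natAbs_eq_zero.1 this)
  · intro l hl
    have h1 : dact wt l p = p ↔ ∀ k ∈ S, l ^ (wt k).natAbs = 1 := by
      constructor
      · intro h k hk
        rw [hS, Finset.mem_filter] at hk
        have h2 := congrFun h k
        have h3 : l ^ wt k * p k = p k := h2
        rw [← xb4_natAbs]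
        exact mul_right_cancel₀ hk.2 (by rw [h3, one_mul])
      · intro h
        funext k
        show l ^ wt k * p k = p k
        by_cases hk : p k = 0
        · rw [hk, mul_zero]
        · have h2 := h k (by
            rw [hS, Finset.mem_filter]
            exact ⟨Finset.mem_univ k, hk⟩)
          rw [← xb4_natAbs] at h2
          rw [h2, one_mul]
    rw [h1]
    constructor
    · intro h
      rw [← orderOf_dvd_iff_pow_eq_one]
      exact Finset.dvd_gcd fun k hk => orderOf_dvd_iff_pow_eq_one.2 (h k hk)
    · intro h k hk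
      rw [← orderOf_dvd_iff_pow_eq_one] at h ⊢
      exact h.trans (Finset.gcd_dvd hk)

end Pool.Agent.KO
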