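import Pool.Agent.KO.Xb.St
import Pool.Agent.KO.C.Inv

/-!
# Block Xb, row B5: the implicit function theorem for slices (helper25)
-/

set_option autoImplicit false

namespace Pool.Agent.KO

open Set Filter Topology

/-- **Row B5.** -/
theorem xb5 : SpIft := by
  intro m n k hm i p K χ hK hK0 hχ hχ0 hinj
  set Θ : (Fin m → ℂ) → ℂ × (Fin k → ℂ) × (Fin n → ℂ) := fun p' => (p' i - p i, K p', χ p')
    with hΘ
  have hi : AnalyticAt ℂ (fun p' : Fin m → ℂ => p' i - p i) p :=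
    ((ContinuousLinearMap.proj (R := ℂ) (φ := fun _ : Fin m => ℂ) i).analyticAt p).sub
      analyticAt_const
  have hΘa : AnalyticAt ℂ Θ p := hi.prod (hK.prod hχ)
  set D : (Fin m → ℂ) →L[ℂ] ℂ × (Fin k → ℂ) × (Fin n → ℂ) :=
    (ContinuousLinearMap.proj (R := ℂ) (φ := fun _ : Fin m => ℂ) i).prod
      ((fderiv ℂ K p).prod (fderiv ℂ χ p)) with hD
  have hΘd : HasFDerivAt Θ D p := by
    have h1 : HasFDerivAt (fun p' : Fin m → ℂ => p' i - p i)
        (ContinuousLinearMap.proj (R := ℂ) (φ := fun _ : Fin m => ℂ) i) p :=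
      ((ContinuousLinearMap.proj (R := ℂ) (φ := fun _ : Fin m => ℂ) i).hasFDerivAt).sub_const _
    exact h1.prodMk (hK.differentiableAt.hasFDerivAt.prodMk hχ.differentiableAt.hasFDerivAt)
  have hDi : Function.Injective (D : (Fin m → ℂ) →ₗ[ℂ] ℂ × (Fin k → ℂ) × (Fin n → ℂ)) := by
    rw [← LinearMap.ker_eq_bot, LinearMap.ker_eq_bot']
    intro w hw
    have h1 : D w = 0 := hw
    have h2 : (w i, fderiv ℂ K p w, fderiv ℂ χ p w) = (0 : ℂ × (Fin k → ℂ) × (Fin n → ℂ)) := h1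
    simp only [Prod.mk_eq_zero] at h2
    exact hinj w h2.1 h2.2.1 h2.2.2
  have hfin : Module.finrank ℂ (Fin m → ℂ)
      = Module.finrank ℂ (ℂ × (Fin k → ℂ) × (Fin n → ℂ)) := by
    rw [Module.finrank_prod, Module.finrank_prod]
    simp only [Module.finrank_fin_fun, Module.finrank_self]
    omega
  let L := (D : (Fin m → ℂ) →ₗ[ℂ] ℂ × (Fin k → ℂ) × (Fin n → ℂ)).linearEquivOfInjective hDi hfin
  obtain ⟨e, hpe, hef, -, hes⟩ := C.inv hΘa L.toContinuousLinearEquiv (by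
    rw [hΘd.fderiv]
    ext1 w
    rfl)
  have hΘp : Θ p = (0, 0, 0) := by
    simp only [hΘ, sub_self, hK0, hχ0]
  have htar : ((0, 0, 0) : ℂ × (Fin k → ℂ) × (Fin n → ℂ)) ∈ e.target := by
    have := e.map_source hpe
    rwa [hef, hΘp] at this
  have hι : AnalyticAt ℂ (fun v : Fin n → ℂ => ((0, 0, v) : ℂ × (Fin k → ℂ) × (Fin n → ℂ))) 0 :=
    analyticAt_const.prod (analyticAt_const.prod analyticAt_id)
  refine ⟨fun v => e.symm (0, 0, v), ?_, ?_, ?_, ?_⟩
  · exact AnalyticAt.comp (g := e.symm)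
      (f := fun v : Fin n → ℂ => ((0, 0, v) : ℂ × (Fin k → ℂ) × (Fin n → ℂ))) (hes _ htar) hι
  · have h1 := e.left_inv hpe
    rw [hef, hΘp] at h1
    exact h1
  · have h1 : ∀ᶠ v : Fin n → ℂ in 𝓝 0,
        ((0, 0, v) : ℂ × (Fin k → ℂ) × (Fin n → ℂ)) ∈ e.target :=
      hι.continuousAt.eventually_mem (e.open_target.mem_nhds htar)
    filter_upwards [h1] with v hv
    have h2 := e.right_inv hv
    rw [hef] at h2
    simp only [hΘ, Prod.mk.injEq] at h2
    exact ⟨h2.2.1, sub_eq_zero.1 h2.1, h2.2.2⟩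
  · filter_upwards [e.open_source.mem_nhds hpe] with p' hp' h1 h2
    have h3 := e.left_inv hp'
    rw [hef] at h3
    simp only [hΘ, h1, h2, sub_self] at h3
    exact h3

end Pool.Agent.KO
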