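import Pool.Agent.KO.Xb.St

/-!
# Block Xb, row B6: the cone is smooth, transversally to the orbits (helper9)
-/

set_option autoImplicit false

namespace Pool.Agent.KO

open Set Filter Topology

/-- The derivative of `G`. -/
theorem xb6_fd (p v : Fin 6 → ℂ) : fderiv ℂ G p v =
    (p 1 * p 2 ^ 10 - 66 * p 0 ^ 65 - 12 * p 0 ^ 11 * p 2 ^ 9) * v 0
      + (p 0 * p 2 ^ 10 + 12 * p 1 ^ 11 * p 2) * v 1
      + (11 * p 5 * p 2 ^ 10 + 10 * p 1 * p 0 * p 2 ^ 9 + p 1 ^ 12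
          - 9 * p 0 ^ 12 * p 2 ^ 8) * v 2
      + 3 * p 3 ^ 2 * v 3 + 2 * p 4 * v 4 + p 2 ^ 11 * v 5 := by
  have h : ∀ j : Fin 6, HasFDerivAt (fun q : Fin 6 → ℂ => q j)
      (ContinuousLinearMap.proj (R := ℂ) (φ := fun _ : Fin 6 => ℂ) j) p :=
    fun j => hasFDerivAt_apply j p
  have h1 := (((((((h 4).pow 2).add ((h 3).pow 3)).add ((h 5).mul ((h 2).pow 11))).add
    (((h 1).mul (h 0)).mul ((h 2).pow 10))).add (((h 1).pow 12).mul (h 2))).sub
    ((h 0).pow 66)).sub (((h 0).pow 12).mul ((h 2).pow 9))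
  have h2 : HasFDerivAt G _ p := h1
  rw [h2.fderiv]
  simp
  ring

/-- The partial derivatives of `G`. -/
theorem xb6_dG (p : Fin 6 → ℂ) :
    fderiv ℂ G p (Pi.single 0 1) = p 1 * p 2 ^ 10 - 66 * p 0 ^ 65 - 12 * p 0 ^ 11 * p 2 ^ 9 ∧
    fderiv ℂ G p (Pi.single 1 1) = p 0 * p 2 ^ 10 + 12 * p 1 ^ 11 * p 2 ∧
    fderiv ℂ G p (Pi.single 2 1) = 11 * p 5 * p 2 ^ 10 + 10 * p 1 * p 0 * p 2 ^ 9 + p 1 ^ 12
      - 9 * p 0 ^ 12 * p 2 ^ 8 ∧
    fderiv ℂ G p (Pi.single 3 1) = 3 * p 3 ^ 2 ∧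
    fderiv ℂ G p (Pi.single 4 1) = 2 * p 4 ∧
    fderiv ℂ G p (Pi.single 5 1) = p 2 ^ 11 := by
  refine ⟨?_, ?_, ?_, ?_, ?_, ?_⟩ <;> rw [xb6_fd] <;> simp

/-- Euler's formula. -/
theorem xb6_euler (p : Fin 6 → ℂ) :
    ∑ j : Fin 6, (wgt j : ℂ) * p j * fderiv ℂ G p (Pi.single j 1) = 66 * G p := by
  obtain ⟨h0, h1, h2, h3, h4, h5⟩ := xb6_dG p
  rw [Fin.sum_univ_six, h0, h1, h2, h3, h4, h5]
  have w0 : (wgt 0 : ℂ) = 1 := by
    rw [show wgt 0 = 1 from rfl]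
    norm_num
  have w1 : (wgt 1 : ℂ) = 5 := by
    rw [show wgt 1 = 5 from rfl]
    norm_num
  have w2 : (wgt 2 : ℂ) = 6 := by
    rw [show wgt 2 = 6 from rfl]
    norm_num
  have w3 : (wgt 3 : ℂ) = 22 := by
    rw [show wgt 3 = 22 from rfl]
    norm_num
  have w4 : (wgt 4 : ℂ) = 33 := by
    rw [show wgt 4 = 33 from rfl]
    norm_num
  have w5 : (wgt 5 : ℂ) = 0 := by
    rw [show wgt 5 = 0 from rfl]
    norm_num
  rw [w0, w1, w2, w3, w4, w5, G]
  ring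

theorem xb6_wgt (i : Fin 6) (hi : i ≠ 5) : (wgt i : ℂ) ≠ 0 := by
  have h : wgt i ≠ 0 := by
    fin_cases i
    · exact one_ne_zero
    · exact Nat.succ_ne_zero 4
    · exact Nat.succ_ne_zero 5
    · exact Nat.succ_ne_zero 21
    · exact Nat.succ_ne_zero 32
    · exact absurd rfl hi
  exact Nat.cast_ne_zero.2 h

/-- If all partial derivatives vanish, then `p` is on the vertex line. -/
theorem xb6_crit (p : Fin 6 → ℂ) (h : ∀ j : Fin 6, fderiv ℂ G p (Pi.single j 1) = 0) :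
    ∀ j : Fin 6, j ≠ 5 → p j = 0 := by
  obtain ⟨h0, h1, h2, h3, h4, h5⟩ := xb6_dG p
  rw [h 0] at h0
  rw [h 2] at h2
  rw [h 3] at h3
  rw [h 4] at h4
  rw [h 5] at h5
  have hw : p 2 = 0 := pow_eq_zero_iff (by norm_num) |>.1 h5.symm
  rw [hw] at h0 h2
  have hu : p 1 = 0 := by
    have h6 : p 1 ^ 12 = 0 := by
      rw [h2]
      ring
    exact pow_eq_zero_iff (by norm_num) |>.1 h6
  have hz : p 0 = 0 := by
    have h6 : 66 * p 0 ^ 65 = 0 := by
      linear_combination h0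
    have h7 : p 0 ^ 65 = 0 := by
      rcases mul_eq_zero.1 h6 with h8 | h8
      · norm_num at h8
      · exact h8
    exact pow_eq_zero_iff (by norm_num) |>.1 h7
  have hx : p 3 = 0 := by
    rcases mul_eq_zero.1 h3.symm with h8 | h8
    · norm_num at h8
    · exact pow_eq_zero_iff (by norm_num) |>.1 h8
  have hy : p 4 = 0 := by
    rcases mul_eq_zero.1 h4.symm with h8 | h8
    · norm_num at h8
    · exact h8
  intro j hj
  fin_cases j
  · exact hz
  · exact hu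
  · exact hw
  · exact hx
  · exact hy
  · exact absurd rfl hj

theorem xb6 : SpEul := by
  intro p hG i hi hpi
  by_contra hc
  push Not at hc
  have he := xb6_euler p
  rw [hG, mul_zero, Finset.sum_eq_single i] at he
  · have hdi : fderiv ℂ G p (Pi.single i 1) = 0 := by
      rcases mul_eq_zero.1 he with h1 | h1
      · exact absurd h1 (mul_ne_zero (xb6_wgt i hi) hpi)
      · exact h1
    refine hpi (xb6_crit p (fun j => ?_) i hi)
    by_cases hj : j = i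
    · rw [hj]
      exact hdi
    · exact hc j hj
  · intro j _ hj
    rw [hc j hj, mul_zero]
  · intro h
    exact absurd (Finset.mem_univ i) h

end Pool.Agent.KO
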