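import Pool.Agent.KO.Xb.St

/-!
# B7. `X` is presented by the cone
-/

set_option autoImplicit false

namespace Pool.Agent.KO

open Set Filter Topology

theorem xb7_dact (l : ℂ) (p : Fin 6 → ℂ) : dact (fun i => (wgt i : ℤ)) l p = act l p := by
  funext i
  simp only [dact, act, zpow_natCast]

theorem xb7_p1 (F : Flip) (p : Fin 6 → ℂ) (h : p ∈ Cone ∧ p ∉ Gam) :
    F.p1 p = F.pi1 ⟨p, h⟩ := by
  unfold Flip.p1
  exact dif_pos h

/-- The neighbourhood filter of a point of the cone. -/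
theorem xb7_nhds (p : Fin 6 → ℂ) (h : p ∈ Cone ∧ p ∉ Gam) :
    𝓝[MS1] p = map (fun x : Flip.M1 => x.1) (𝓝 (⟨p, h⟩ : Flip.M1)) :=
  nhdsWithin_eq_map_subtype_coe (s := MS1) h

theorem xb7 (F : Flip) (hX : F.XaFacts) : SpPres1 F := by
  unfold SpPres1
  refine ⟨?_, ?_, ?_, ?_⟩
  · intro p hp l hl
    rw [xb7_dact]
    have hm : act l p ∈ Cone ∧ act l p ∉ Gam :=
      ⟨(act_mem_Cone hl).2 hp.1, fun h => hp.2 ((act_mem_Gam hl).1 h)⟩
    refine ⟨hm, ?_⟩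
    rw [xb7_p1 F _ hm, xb7_p1 F _ hp]
    exact ((hX.rel.eq11 ⟨p, hp⟩ ⟨act l p, hm⟩).2 ⟨l, hl, rfl⟩).symm
  · intro p hp p' hp' h
    rw [xb7_p1 F _ hp, xb7_p1 F _ hp'] at h
    obtain ⟨l, hl, h⟩ := (hX.rel.eq11 ⟨p, hp⟩ ⟨p', hp'⟩).1 h
    refine ⟨l, hl, ?_⟩
    rw [xb7_dact]
    exact h
  · intro p hp
    rw [xb7_nhds p hp, map_map, xb7_p1 F _ hp]
    have e : F.p1 ∘ (fun x : Flip.M1 => x.1) = F.pi1 := by
      funext x
      exact xb7_p1 F x.1 x.2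
    rw [e]
    exact hX.top.open1.map_nhds_eq hX.top.cont1.continuousAt
  · intro p hp f
    rw [xb7_p1 F _ hp, hX.ofacts.o1 f ⟨p, hp⟩]
    have key : ∀ H : (Fin 6 → ℂ) → ℂ, (∀ᶠ p' in 𝓝 (⟨p, hp⟩ : Flip.M1), f (F.pi1 p') = H p'.1) ↔
        ∀ᶠ p' in 𝓝[MS1] p, f (F.p1 p') = H p' := by
      intro H
      rw [xb7_nhds p hp, eventually_map]
      have e : ∀ x : Flip.M1, (f (F.p1 x.1) = H x.1) ↔ (f (F.pi1 x) = H x.1) := by
        intro x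
        rw [xb7_p1 F x.1 x.2]
      exact (eventually_congr (Eventually.of_forall e)).symm
    constructor
    · rintro ⟨H, h1, h2⟩
      exact ⟨H, h1, (key H).1 h2⟩
    · rintro ⟨H, h1, h2⟩
      exact ⟨H, h1, (key H).2 h2⟩

end Pool.Agent.KO
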