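import Pool.Agent.KO.Xb.St

/-!
# Block Xb, row B8: `X` is presented by the flip chart
-/

set_option autoImplicit false

namespace Pool.Agent.KO

open Set Filter Topology

theorem xb8_p2 (F : Flip) (q : Fin 5 → ℂ) (h : q ∈ MS2 F) : F.p2 q = F.pi2 ⟨q, h⟩ :=
  dif_pos h

theorem xb8_mem (F : Flip) {l : ℂ} (hl : l ≠ 0) {q : Fin 5 → ℂ} (h : q ∈ MS2 F) :
    dact wgt' l q ∈ MS2 F := by
  refine ⟨Flip.act'_Dom hl h.1, ?_⟩
  rcases h.2 with h' | h' | h'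
  · exact Or.inl ((act'_apply_ne hl q 0).2 h')
  · exact Or.inr (Or.inl ((act'_apply_ne hl q 1).2 h'))
  · exact Or.inr (Or.inr ((act'_apply_ne hl q 2).2 h'))

theorem xb8_map (F : Flip) (q : Fin 5 → ℂ) (h : q ∈ MS2 F) :
    map F.p2 (𝓝[MS2 F] q) = map F.pi2 (𝓝 ⟨q, h⟩) := by
  have e : 𝓝[MS2 F] q = map (Subtype.val : F.M2 → Fin 5 → ℂ) (𝓝 ⟨q, h⟩) :=
    nhdsWithin_eq_map_subtype_coe h
  rw [e, Filter.map_map]
  have e2 : F.p2 ∘ (Subtype.val : F.M2 → Fin 5 → ℂ) = F.pi2 := by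
    funext q'
    exact xb8_p2 F q'.1 q'.2
  rw [e2]

theorem xb8 (F : Flip) (hX : F.XaFacts) : SpPres2 F where
  inv := by
    intro q hq l hl
    refine ⟨xb8_mem F hl hq, ?_⟩
    rw [xb8_p2 F q hq, xb8_p2 F _ (xb8_mem F hl hq)]
    exact ((hX.rel.eq22 ⟨q, hq⟩ ⟨dact wgt' l q, xb8_mem F hl hq⟩).2 ⟨l, hl, rfl⟩).symm
  orb := by
    intro q hq q' hq' h
    rw [xb8_p2 F q hq, xb8_p2 F q' hq'] at h
    exact (hX.rel.eq22 ⟨q, hq⟩ ⟨q', hq'⟩).1 h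
  nhds := by
    intro q hq
    rw [xb8_map F q hq, xb8_p2 F q hq]
    exact le_antisymm hX.top.cont2.continuousAt (hX.top.open2.nhds_le _)
  hol := by
    intro q hq f
    rw [xb8_p2 F q hq, hX.ofacts.o2 f ⟨q, hq⟩]
    have key : ∀ H : (Fin 5 → ℂ) → ℂ, (∀ᶠ q' in 𝓝 (⟨q, hq⟩ : F.M2), f (F.pi2 q') = H q'.1) ↔
        ∀ᶠ q' in 𝓝[MS2 F] q, f (F.p2 q') = H q' := by
      intro H
      have e : 𝓝[MS2 F] q = map (Subtype.val : F.M2 → Fin 5 → ℂ) (𝓝 ⟨q, hq⟩) :=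
        nhdsWithin_eq_map_subtype_coe hq
      rw [e, Filter.eventually_map]
      refine eventually_congr (Eventually.of_forall fun q' => ?_)
      rw [xb8_p2 F q'.1 q'.2]
    constructor
    · rintro ⟨H, hH, h⟩
      exact ⟨H, hH, (key H).1 h⟩
    · rintro ⟨H, hH, h⟩
      exact ⟨H, hH, (key H).2 h⟩

end Pool.Agent.KO
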