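import Pool.Agent.KO.Xb.St

/-!
# Block Xb, row B9: local structure of `X` at the points of the cone
-/

set_option autoImplicit false

namespace Pool.Agent.KO

open Set Filter Topology

theorem xb9_proj (p : Fin 6 → ℂ) (i : Fin 6) : AnalyticAt ℂ (fun p : Fin 6 → ℂ => p i) p :=
  (ContinuousLinearMap.proj (R := ℂ) (φ := fun _ : Fin 6 => ℂ) i).analyticAt p

theorem xb9_G (p : Fin 6 → ℂ) : AnalyticAt ℂ G p := by
  have h := xb9_proj p
  exact (((((((h 4).pow 2).add ((h 3).pow 3)).add ((h 5).mul ((h 2).pow 11))).add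
    (((h 1).mul (h 0)).mul ((h 2).pow 10))).add (((h 1).pow 12).mul (h 2))).sub
      ((h 0).pow 66)).sub (((h 0).pow 12).mul ((h 2).pow 9))

theorem xb9_wgt (i : Fin 6) (hi : i ≠ 5) : ((wgt i : ℕ) : ℤ) ≠ 0 := by
  have h : wgt i ≠ 0 := by
    revert hi
    revert i
    decide
  exact_mod_cast h

theorem xb9_closed : IsClosed Gam := by
  have h : ∀ i : Fin 6, Continuous fun p : Fin 6 → ℂ => p i := fun i => continuous_apply i
  refine (isClosed_eq (h 5) continuous_const).inter ((isClosed_eq (h 1) continuous_const).inter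
    ((isClosed_eq (h 3) (((h 0).pow 4).mul ((h 2).pow 3))).inter
      (isClosed_eq (h 4) ((h 0).pow 33))))

/-- Near a point of `MS1`, the zeros of `G` are in `MS1`. -/
theorem xb9_nhd (p : Fin 6 → ℂ) (hp : p ∈ MS1) : ∀ᶠ p' in 𝓝 p, G p' = 0 → p' ∈ MS1 := by
  obtain ⟨⟨-, ⟨i, hi5, hpi⟩, h5⟩, hG⟩ := hp
  have h1 : ∀ᶠ p' : Fin 6 → ℂ in 𝓝 p, p' i ≠ 0 :=
    (continuous_apply i).continuousAt.eventually_ne hpi
  have h2 : ∀ᶠ p' : Fin 6 → ℂ in 𝓝 p, ‖p' 5‖ < 1 := by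
    have hc : Continuous fun p' : Fin 6 → ℂ => ‖p' 5‖ := (continuous_apply (5 : Fin 6)).norm
    exact hc.continuousAt.eventually (gt_mem_nhds h5)
  have h3 : ∀ᶠ p' in 𝓝 p, p' ∉ Gam := xb9_closed.isOpen_compl.mem_nhds hG
  filter_upwards [h1, h2, h3] with p' e1 e2 e3 e4
  exact ⟨⟨e4, ⟨i, hi5, e1⟩, e2⟩, e3⟩

theorem xb9 (F : Flip) (hpr : SpPres1 F) (hsl : SpSlice) (hst : SpStab) (hift : SpIft)
    (heul : SpEul) : SpLq1 F := by
  classical
  intro p hp
  obtain ⟨⟨hG, ⟨i, hi5, hpi⟩, h5⟩, hGam⟩ := hp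
  have hwi := xb9_wgt i hi5
  obtain ⟨b, hb, hstab⟩ := hst 6 (fun i => (wgt i : ℤ)) p i hpi hwi
  obtain ⟨j, hji, hdj⟩ := heul p hG i hi5 hpi
  -- the other coordinates
  have hcard : (({i, j} : Finset (Fin 6))ᶜ).card = 4 := by
    rw [Finset.card_compl, Finset.card_pair hji.symm]
    rfl
  let κ : Fin 4 ↪o Fin 6 := (({i, j} : Finset (Fin 6))ᶜ).orderEmbOfFin hcard
  have hκ : ∀ l : Fin 6, l ≠ i → l ≠ j → ∃ k, κ k = l := by
    intro l h1 h2
    have h3 : Set.range κ = ((({i, j} : Finset (Fin 6))ᶜ : Finset (Fin 6)) : Set (Fin 6)) :=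
      Finset.range_orderEmbOfFin _ hcard
    have h4 : l ∈ Set.range κ := by
      rw [h3]
      simp [h1, h2]
    exact h4
  let χ : (Fin 6 → ℂ) → Fin 4 → ℂ := fun p' k => p' (κ k) - p (κ k)
  let K : (Fin 6 → ℂ) → Fin 1 → ℂ := fun p' _ => G p'
  have hKa : AnalyticAt ℂ K p := analyticAt_pi_iff.2 fun _ => xb9_G p
  have hχa : AnalyticAt ℂ χ p :=
    analyticAt_pi_iff.2 fun k => (xb9_proj p (κ k)).sub analyticAt_const
  have hKp : K p = 0 := funext fun _ => hG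
  have hχp : χ p = 0 := funext fun k => sub_self _
  have hinj : ∀ w : Fin 6 → ℂ, w i = 0 → fderiv ℂ K p w = 0 → fderiv ℂ χ p w = 0 → w = 0 := by
    intro w hw hKw hχw
    have hK : HasFDerivAt K (ContinuousLinearMap.pi fun _ : Fin 1 => fderiv ℂ G p) p :=
      hasFDerivAt_pi.2 fun _ => (xb9_G p).differentiableAt.hasFDerivAt
    have hχ : HasFDerivAt χ (ContinuousLinearMap.pi fun k : Fin 4 =>
        ContinuousLinearMap.proj (R := ℂ) (φ := fun _ : Fin 6 => ℂ) (κ k)) p :=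
      hasFDerivAt_pi.2 fun k =>
        (ContinuousLinearMap.proj (R := ℂ) (φ := fun _ : Fin 6 => ℂ) (κ k)).hasFDerivAt.sub_const _
    rw [hK.fderiv] at hKw
    rw [hχ.fderiv] at hχw
    have h1 : fderiv ℂ G p w = 0 := congrFun hKw 0
    have h2 : ∀ k, w (κ k) = 0 := fun k => congrFun hχw k
    have h3 : w = w j • Pi.single j (1 : ℂ) := by
      funext l
      rw [Pi.smul_apply, smul_eq_mul]
      by_cases hlj : l = j
      · rw [hlj, Pi.single_eq_same, mul_one]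
      · rw [Pi.single_eq_of_ne hlj, mul_zero]
        by_cases hli : l = i
        · rw [hli, hw]
        · obtain ⟨k, hk⟩ := hκ l hli hlj
          rw [← hk]
          exact h2 k
    have h4 : w j * fderiv ℂ G p (Pi.single j 1) = 0 := by
      have h5' : fderiv ℂ G p w = w j • fderiv ℂ G p (Pi.single j 1) := by
        conv_lhs => rw [h3]
        rw [map_smul]
      rw [← smul_eq_mul, ← h5', h1]
    have h6 : w j = 0 := (mul_eq_zero.1 h4).resolve_right hdj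
    rw [h3, h6, zero_smul]
  obtain ⟨ψ, hψa, hψ0, hev1, hev2⟩ := hift 6 4 1 rfl i p K χ hKa hKp hχa hχp hinj
  have hpM : p ∈ MS1 := ⟨⟨hG, ⟨i, hi5, hpi⟩, h5⟩, hGam⟩
  have hψc : Tendsto ψ (𝓝 0) (𝓝 p) := by
    have := hψa.continuousAt.tendsto
    rwa [hψ0] at this
  obtain ⟨r, hr, -⟩ := hsl F.Sp F.O 6 (fun i => (wgt i : ℤ)) MS1 F.p1 hpr 4 b
    (fun k => (wgt (κ k) : ℤ)) i p hb hpM hpi hwi hstab χ ψ hχa hχp hψa hψ0
    (by
      filter_upwards [hev1, hψc.eventually (xb9_nhd p hpM)] with v h1 h2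
      exact ⟨h2 (congrFun h1.1 0), h1.2.1, h1.2.2⟩)
    (by
      filter_upwards [hev2] with p' h1 h2 h3
      exact h1 (funext fun _ => h2.1.1) h3)
    (by
      intro ζ hζ
      have hζ0 : ζ ≠ 0 := by
        rintro rfl
        rw [zero_pow (by omega)] at hζ
        exact zero_ne_one hζ
      have h1 := (hstab ζ hζ0).2 hζ
      refine Eventually.of_forall fun p' => ?_
      funext k
      have h2 : ζ ^ ((wgt (κ k) : ℕ) : ℤ) * p (κ k) = p (κ k) := congrFun h1 (κ k)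
      show ζ ^ ((wgt (κ k) : ℕ) : ℤ) * p' (κ k) - p (κ k) =
        ζ ^ ((wgt (κ k) : ℕ) : ℤ) * (p' (κ k) - p (κ k))
      rw [mul_sub, h2])
  exact ⟨b, _, _, r, hr⟩

end Pool.Agent.KO
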