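import Pool.Agent.KO.Xb.St

/-!
# Block Xb: `X` is a complex space (assembly)
-/

set_option autoImplicit false

namespace Pool.Agent.KO

open Set Filter Topology

theorem Flip.p1_eq (F : Flip) {p : Fin 6 → ℂ} (h : p ∈ Cone ∧ p ∉ Gam) :
    F.p1 p = F.pi1 ⟨p, h⟩ := by
  unfold Flip.p1
  rw [dif_pos h]

theorem Flip.p2_eq (F : Flip) {q : Fin 5 → ℂ}
    (h : q ∈ Dom F.ρ ∧ (q 0 ≠ 0 ∨ q 1 ≠ 0 ∨ q 2 ≠ 0)) :
    F.p2 q = F.pi2 ⟨q, h⟩ := by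
  unfold Flip.p2
  rw [dif_pos h]

/-- `X` is a complex space. -/
theorem xb_main (F : Flip) (hX : F.RelFacts) (h1 : SpLq1 F) (h2 : SpLq2 F) (hq : SpQch) :
    SpXb F := by
  intro x
  rcases hX.surj x with ⟨p, rfl⟩ | ⟨q, rfl, -, -⟩
  · obtain ⟨b, β, σ, r, h⟩ := h1 p.1 p.2
    rw [F.p1_eq p.2] at h
    exact hq F.Sp F.O 4 b β (F.pi1 p) σ r (by norm_num) h
  · obtain ⟨b, β, σ, r, h⟩ := h2 q.1 q.2
    rw [F.p2_eq q.2] at h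
    exact hq F.Sp F.O 4 b β (F.pi2 q) σ r (by norm_num) h

end Pool.Agent.KO
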