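import Pool.Agent.KO.Xa.Main
import Pool.Agent.KO.Xb.Main
import Pool.Agent.KO.Xb.B1
import Pool.Agent.KO.Xb.B2
import Pool.Agent.KO.Xb.B3
import Pool.Agent.KO.Xb.B4
import Pool.Agent.KO.Xb.B5
import Pool.Agent.KO.Xb.B6
import Pool.Agent.KO.Xb.B7
import Pool.Agent.KO.Xb.B8
import Pool.Agent.KO.Xb.B9
import Pool.Agent.KO.Xb.B10
import Pool.Agent.KO.Xb.B11
import Pool.Agent.KO.Q.Exp
import Pool.Agent.KO.Q.Fib
import Pool.Agent.KO.Q.Fun
import Pool.Agent.KO.Q.Img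
import Pool.Agent.KO.Q.Inv
import Pool.Agent.KO.Q.Lift
import Pool.Agent.KO.Q.Mon
import Pool.Agent.KO.Q.Nhd
import Pool.Agent.KO.Q.Orb
import Pool.Agent.KO.Q.Poly
import Pool.Agent.KO.Q.Prop
import Pool.Agent.KO.Q.Root
import Pool.Agent.KO.Q.Ser
import Pool.Agent.KO.Q.Set
import Pool.Agent.KO.Q.St
import Pool.Agent.KO.Q.Word
import Pool.Agent.KO.Q.Zero

/-!
# Block Xb: all rows together
-/

set_option autoImplicit false

namespace Pool.Agent.KO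

/-- Quotients are complex spaces. -/
theorem spQch : SpQch := by
  have h11 : Q.SpFib := Q.sp_fib (Q.sp_poly Q.sp_word) Q.sp_orb
  have h8 : Q.SpInv := Q.sp_inv (Q.sp_zero Q.sp_word Q.sp_exp Q.sp_ser) Q.sp_st
    (Q.sp_mon Q.sp_word Q.sp_root Q.sp_st)
  have h12 : Q.SpProp := Q.sp_prop
  have h13 : Q.SpNhd := Q.sp_nhd h11 h12
  exact xb11 h11 h12 (Q.sp_fun Q.sp_st h8 h13 h12 h11) (Q.sp_set Q.sp_st h8 h11 h12 h13
    (Q.sp_img Q.sp_lift))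

/-- `X` is a complex space. -/
theorem Flip.isSpace (F : Flip) : IsSpace F.O :=
  xb_main F F.xaFacts.rel (xb9 F (xb7 F F.xaFacts) (xb3 xb1 xb2) xb4 xb5 xb6)
    (xb10 F (xb8 F F.xaFacts) (xb3 xb1 xb2) xb4) spQch

end Pool.Agent.KO
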