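import Pool.Agent.KO.Xb.Defs

/-!
# Blocks Xb, Xd: the statements of the rows

`Xb`: local structure of `X`. `Xd`: the central fibre has canonical singularities.
-/

set_option autoImplicit false

namespace Pool.Agent.KO

open Set Filter Topology

/-! ### Presentations and slices -/

/-- B1. The local root `λ` with `λ ^ (wt i) * p' i = p i`. -/
def SpRt : Prop := ∀ (m : ℕ) (wt : Fin m → ℤ) (i : Fin m) (p : Fin m → ℂ), p i ≠ 0 → wt i ≠ 0 →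
  ∃ lam : (Fin m → ℂ) → ℂ, AnalyticAt ℂ lam p ∧ lam p = 1 ∧ (∀ p', lam p' ≠ 0) ∧
    (∀ p', p' i = p i → lam p' = 1) ∧ ∀ᶠ p' in 𝓝 p, dact wt (lam p') p' i = p i

/-- B2. Two points near `p` in one orbit, with the same `i`-th coordinate, differ by the
stabilizer of `p`. -/
def SpSep : Prop := ∀ (m b : ℕ) (wt : Fin m → ℤ) (i : Fin m) (p : Fin m → ℂ), 1 ≤ b → p i ≠ 0 →
  wt i ≠ 0 → (∀ l : ℂ, l ≠ 0 → (dact wt l p = p ↔ l ^ b = 1)) →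
  ∃ N ∈ 𝓝 p, ∀ p' ∈ N, ∀ l : ℂ, l ≠ 0 → dact wt l p' ∈ N → dact wt l p' i = p' i → l ^ b = 1

/-- B3. The slice lemma. -/
def SpSlice : Prop := ∀ (X : Type) [TopologicalSpace X] (O : Shf X) (m : ℕ) (wt : Fin m → ℤ)
  (M : Set (Fin m → ℂ)) (π : (Fin m → ℂ) → X), Pres O wt M π →
  ∀ (n b : ℕ) (β : Fin n → ℤ) (i : Fin m) (p : Fin m → ℂ), 1 ≤ b → p ∈ M → p i ≠ 0 → wt i ≠ 0 →
  (∀ l : ℂ, l ≠ 0 → (dact wt l p = p ↔ l ^ b = 1)) →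
  ∀ (χ : (Fin m → ℂ) → Fin n → ℂ) (ψ : (Fin n → ℂ) → Fin m → ℂ),
  AnalyticAt ℂ χ p → χ p = 0 → AnalyticAt ℂ ψ 0 → ψ 0 = p →
  (∀ᶠ v in 𝓝 (0 : Fin n → ℂ), ψ v ∈ M ∧ ψ v i = p i ∧ χ (ψ v) = v) →
  (∀ᶠ p' in 𝓝 p, p' ∈ M → p' i = p i → ψ (χ p') = p') →
  (∀ ζ : ℂ, ζ ^ b = 1 → ∀ᶠ p' in 𝓝 p, χ (dact wt ζ p') = dact β ζ (χ p')) →
  ∃ r, LQ O n b β (π p) (π ∘ ψ) r ∧
    ∀ v ∈ Metric.ball (0 : Fin n → ℂ) r, ψ v ∈ M ∧ χ (ψ v) = v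

/-- B4. Stabilizers. -/
def SpStab : Prop := ∀ (m : ℕ) (wt : Fin m → ℤ) (p : Fin m → ℂ) (i : Fin m), p i ≠ 0 →
  wt i ≠ 0 → ∃ b : ℕ, 1 ≤ b ∧ ∀ l : ℂ, l ≠ 0 → (dact wt l p = p ↔ l ^ b = 1)

/-- B5. The implicit function theorem for slices. -/
def SpIft : Prop := ∀ (m n k : ℕ), m = n + k + 1 → ∀ (i : Fin m) (p : Fin m → ℂ)
  (K : (Fin m → ℂ) → Fin k → ℂ) (χ : (Fin m → ℂ) → Fin n → ℂ), AnalyticAt ℂ K p → K p = 0 →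
  AnalyticAt ℂ χ p → χ p = 0 →
  (∀ w : Fin m → ℂ, w i = 0 → fderiv ℂ K p w = 0 → fderiv ℂ χ p w = 0 → w = 0) →
  ∃ ψ : (Fin n → ℂ) → Fin m → ℂ, AnalyticAt ℂ ψ 0 ∧ ψ 0 = p ∧
    (∀ᶠ v in 𝓝 (0 : Fin n → ℂ), K (ψ v) = 0 ∧ ψ v i = p i ∧ χ (ψ v) = v) ∧
    ∀ᶠ p' in 𝓝 p, K p' = 0 → p' i = p i → ψ (χ p') = p'

/-- B6. The cone is smooth, transversally to the orbits. -/
def SpEul : Prop := ∀ p : Fin 6 → ℂ, G p = 0 → ∀ i : Fin 6, i ≠ 5 → p i ≠ 0 →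
  ∃ j : Fin 6, j ≠ i ∧ fderiv ℂ G p (Pi.single j 1) ≠ 0

/-- B7. `X` is presented by the cone. -/
def SpPres1 (F : Flip) : Prop := Pres F.O (fun i => (wgt i : ℤ)) MS1 F.p1

/-- B8. `X` is presented by the flip chart. -/
def SpPres2 (F : Flip) : Prop := Pres F.O wgt' (MS2 F) F.p2

/-- B9. Local structure of `X` at the points of the cone. -/
def SpLq1 (F : Flip) : Prop := ∀ p ∈ MS1, ∃ b β σ r, LQ F.O 4 b β (F.p1 p) σ r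

/-- B10. Local structure of `X` at the points of the flip chart. -/
def SpLq2 (F : Flip) : Prop := ∀ q ∈ MS2 F, ∃ b β σ r, LQ F.O 4 b β (F.p2 q) σ r

/-- B11. Quotients are complex spaces. -/
def SpQch : Prop := ∀ (X : Type) [TopologicalSpace X] (O : Shf X) (n b : ℕ) (β : Fin n → ℤ)
  (x : X) (σ : (Fin n → ℂ) → X) (r : ℝ), 1 ≤ n → LQ O n b β x σ r →
  ∃ (N : ℕ) (U : Set X) (c : X → Fin N → ℂ) (Ω : Set (Fin N → ℂ)), x ∈ U ∧ IsChart O U c Ω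

/-! ### The central fibre: geometry -/

/-- D1. The central fibre is quasi-smooth outside of `Γ`. -/
def SpQs : Prop := ∀ p : Fin 6 → ℂ, G p = 0 → p 5 = 0 → p ∉ Gam → ∀ i : Fin 6, i ≠ 5 → p i ≠ 0 →
  ∃ j : Fin 6, j ≠ i ∧ j ≠ 5 ∧ fderiv ℂ G p (Pi.single j 1) ≠ 0

/-- D2. Stabilizers in the central fibre. -/
def SpSt0 : Prop := ∀ p ∈ MS1, p 5 = 0 →
  (∀ l : ℂ, l ≠ 0 → (dact (fun i => (wgt i : ℤ)) l p = p ↔ l ^ 1 = 1)) ∨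
  (p 1 ≠ 0 ∧ p 0 = 0 ∧ p 2 = 0 ∧ p 3 = 0 ∧ p 4 = 0) ∨
  (p 3 ≠ 0 ∧ p 4 ≠ 0 ∧ p 0 = 0 ∧ p 1 = 0 ∧ p 2 = 0)

/-- D3. Local structure at the points of the cone with `t = 0`. -/
def SpLq10 (F : Flip) : Prop := ∀ p ∈ MS1, p 5 = 0 → ∀ i j : Fin 6, i ≠ 5 → j ≠ 5 → j ≠ i →
  p i ≠ 0 → fderiv ℂ G p (Pi.single j 1) ≠ 0 → ∀ b : ℕ, 1 ≤ b →
  (∀ l : ℂ, l ≠ 0 → (dact (fun i => (wgt i : ℤ)) l p = p ↔ l ^ b = 1)) →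
  ∀ κ : Fin 3 → Fin 6, Function.Injective κ → (∀ k, κ k ≠ i ∧ κ k ≠ j ∧ κ k ≠ 5) →
  ∃ σ r, LQ F.O 4 b ![(wgt (κ 0) : ℤ), wgt (κ 1), wgt (κ 2), 0] (F.p1 p) σ r ∧
    ∀ v ∈ Metric.ball (0 : Fin 4 → ℂ) r, F.g (σ v) = v 3

/-- D4. Local structure at the points of `Π` where `dT ≠ 0`. -/
def SpLq20 (F : Flip) : Prop := ∀ q ∈ MS2 F, q 3 = 0 → q 4 = 0 → ∀ i j : Fin 5,
  (i = 0 ∨ i = 1 ∨ i = 2) → q i ≠ 0 →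
  ((j = 3 ∧ q 0 ≠ 0) ∨ (j = 4 ∧ q 1 ^ 3 / 27 - q 2 ^ 2 / 4 ≠ 0)) → ∀ b : ℕ, 1 ≤ b →
  (∀ l : ℂ, l ≠ 0 → (dact wgt' l q = q ↔ l ^ b = 1)) →
  ∀ κ : Fin 3 → Fin 5, Function.Injective κ → (∀ k, κ k ≠ i ∧ κ k ≠ j) →
  ∃ σ r, LQ F.O 4 b ![wgt' (κ 0), wgt' (κ 1), wgt' (κ 2), 0] (F.p2 q) σ r ∧
    ∀ v ∈ Metric.ball (0 : Fin 4 → ℂ) r, F.g (σ v) = v 3

/-- D5a. `T = z α + w β` near a point of `Π`, in the slice `A₂ = const`. -/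
def SpHad (F : Flip) : Prop := ∀ q ∈ MS2 F, q 3 = 0 → q 4 = 0 → q 0 = 0 →
  q 1 ^ 3 / 27 - q 2 ^ 2 / 4 = 0 → ∃ α β : (Fin 5 → ℂ) → ℂ, AnalyticAt ℂ α q ∧ AnalyticAt ℂ β q ∧
    α q = 0 ∧ β q = 0 ∧ (∀ᶠ q' in 𝓝 q, F.Φ q' 5 = q' 3 * α q' + q' 4 * β q') ∧
    ∀ w : Fin 5 → ℂ, w 1 = 0 → w 3 = 0 → w 4 = 0 → fderiv ℂ α q w = 0 → fderiv ℂ β q w = 0 →
      w = 0

/-- D5b. Local structure at the node. -/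
def SpLqN (F : Flip) : Prop := ∀ q ∈ MS2 F, q 3 = 0 → q 4 = 0 → q 0 = 0 →
  q 1 ^ 3 / 27 - q 2 ^ 2 / 4 = 0 → ∃ σ r, LQ F.O 4 1 0 (F.p2 q) σ r ∧
    ∀ v ∈ Metric.ball (0 : Fin 4 → ℂ) r, F.g (σ v) = v 0 * v 2 + v 1 * v 3

/-- D6. The local models of `X` along the central fibre. -/
def SpModel (F : Flip) : Prop := ∀ x : F.Sp, F.g x = 0 →
  (∃ b β σ r, QType b β ∧ LQ F.O 4 b β x σ r ∧
    ∀ v ∈ Metric.ball (0 : Fin 4 → ℂ) r, F.g (σ v) = v 3) ∨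
  ∃ σ r, LQ F.O 4 1 0 x σ r ∧
    ∀ v ∈ Metric.ball (0 : Fin 4 → ℂ) r, F.g (σ v) = v 0 * v 2 + v 1 * v 3

/-! ### The fibre is reduced -/

/-- D7. Division by a function without critical points. -/
def SpDiv : Prop := ∀ (n : ℕ) (p : Fin n → ℂ) (T H : (Fin n → ℂ) → ℂ), AnalyticAt ℂ T p →
  AnalyticAt ℂ H p → fderiv ℂ T p ≠ 0 → (∀ᶠ v in 𝓝 p, T v = 0 → H v = 0) →
  ∃ K, AnalyticAt ℂ K p ∧ ∀ᶠ v in 𝓝 p, H v = T v * K v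

/-- D8. The fibre is reduced at a point with isolated critical points of `g`. -/
def SpRed : Prop := ∀ (X : Type) [TopologicalSpace X] (O : Shf X) (g : X → ℂ) (x : X) (b : ℕ)
  (β : Fin 4 → ℤ) (σ : (Fin 4 → ℂ) → X) (r : ℝ), LQ O 4 b β x σ r → (∀ y, O g y) → g x = 0 →
  (∀ᶠ v in 𝓝 (0 : Fin 4 → ℂ), v ≠ 0 → fderiv ℂ (g ∘ σ) v ≠ 0) →
  ∀ f, O f x → (∀ᶠ y in 𝓝 x, g y = 0 → f y = 0) → ∃ h, O h x ∧ ∀ᶠ y in 𝓝 x, f y = g y * h y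

/-! ### From `X` to the central fibre -/

/-- D9. Quotient points of the fibre. -/
def SpZq : Prop := ∀ (X : Type) [TopologicalSpace X] (O : Shf X) (g : X → ℂ) (x : X)
  (hx : g x = 0) (b : ℕ) (β : Fin 4 → ℤ) (σ : (Fin 4 → ℂ) → X) (r : ℝ), LQ O 4 b β x σ r →
  β 3 = 0 → (∀ v ∈ Metric.ball (0 : Fin 4 → ℂ) r, g (σ v) = v 3) →
  ∃ τ, LQ (res O {x | g x = 0}) 3 b ![β 0, β 1, β 2] ⟨x, hx⟩ τ r

/-- D10. The node of the fibre. -/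
def SpZn : Prop := ∀ (X : Type) [TopologicalSpace X] (O : Shf X) (g : X → ℂ) (x : X)
  (hx : g x = 0) (σ : (Fin 4 → ℂ) → X) (r : ℝ), LQ O 4 1 0 x σ r →
  (∀ v ∈ Metric.ball (0 : Fin 4 → ℂ) r, g (σ v) = v 0 * v 2 + v 1 * v 3) →
  ∃ τ, Node (res O {x | g x = 0}) ⟨x, hx⟩ τ r

/-! ### Smooth points, coordinates -/

/-- D11. Points of an étale parametrisation are smooth, with an explicit coordinate system;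
coordinate systems read in an étale parametrisation. -/
def SpCoord : Prop := ∀ (X : Type) [TopologicalSpace X] (O : Shf X) (D : Set (Fin 3 → ℂ))
  (τ : (Fin 3 → ℂ) → X), LPar O D τ → ∀ v ∈ D, Good O (τ v) ∧
  (∃ c : X → Fin 3 → ℂ, IsCoord O c (τ v) ∧ ∀ᶠ u in 𝓝 v, c (τ u) = u) ∧
  (∀ m, IsReg O m (τ v) → m = 3) ∧
  ∀ c : X → Fin 3 → ℂ, IsCoord O c (τ v) → AnalyticAt ℂ (c ∘ τ) v ∧
    (fderiv ℂ (c ∘ τ) v).det ≠ 0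

/-- D12. Quotient presentations are étale at free points. -/
def SpFree : Prop := ∀ (X : Type) [TopologicalSpace X] (O : Shf X) (b : ℕ) (β : Fin 3 → ℤ)
  (x : X) (σ : (Fin 3 → ℂ) → X) (r : ℝ), LQ O 3 b β x σ r →
  (∀ ζ : ℂ, ζ ^ b = 1 → ∀ k, ζ ^ β k = 1 → ζ = 1) →
  LPar O (Metric.ball 0 r \ {0}) σ ∧ (b = 1 → LPar O (Metric.ball 0 r) σ)

/-- D13. Lifting maps through étale parametrisations. -/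
def SpLift3 : Prop := ∀ (X : Type) [TopologicalSpace X] (O : Shf X) (D : Set (Fin 3 → ℂ))
  (τ : (Fin 3 → ℂ) → X), LPar O D τ → ∀ v ∈ D, ∀ (φ : (Fin 3 → ℂ) → X) (b : Fin 3 → ℂ),
  HolAt (stdO 3) O φ b → φ b = τ v → ∃ ψ : (Fin 3 → ℂ) → (Fin 3 → ℂ), AnalyticAt ℂ ψ b ∧
    ψ b = v ∧ ∀ᶠ u in 𝓝 b, τ (ψ u) = φ u

/-! ### Normality -/

/-- D14. Extension of functions over quotient points. -/
def SpExtQ : Prop := ∀ (X : Type) [TopologicalSpace X] (O : Shf X) (b : ℕ) (β : Fin 3 → ℤ)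
  (x : X) (σ : (Fin 3 → ℂ) → X) (r : ℝ), LQ O 3 b β x σ r → ∀ f : X → ℂ,
  (∀ᶠ y in 𝓝 x, y ≠ x → O f y) → ∃ F, O F x ∧ ∀ᶠ y in 𝓝 x, y ≠ x → F y = f y

/-- D15. Extension of functions over the node. -/
def SpExtN : Prop := ∀ (X : Type) [TopologicalSpace X] (O : Shf X) (x : X)
  (σ : (Fin 4 → ℂ) → X) (r : ℝ), Node O x σ r → ∀ f : X → ℂ,
  (∀ᶠ y in 𝓝 x, y ≠ x → O f y) → ∃ F, O F x ∧ ∀ᶠ y in 𝓝 x, y ≠ x → F y = f y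

/-- D16. Normality from local data. -/
def SpNorm : Prop := ∀ (X : Type) [TopologicalSpace X] (O : Shf X), LocShf O →
  (∀ x, (∀ᶠ y in 𝓝 x, y ≠ x → Good O y) ∧ x ∈ closure {y | Good O y} ∧
    ∀ f, (∀ᶠ y in 𝓝 x, y ≠ x → O f y) → ∃ F, O F x ∧ ∀ᶠ y in 𝓝 x, y ≠ x → F y = f y) →
  IsNormal O 3

/-! ### Forms -/

/-- D17. Forms from étale parametrisations. -/
def SpForm : Prop := ∀ (X : Type) [TopologicalSpace X] (O : Shf X) (m : ℕ) (ι : Type)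
  (D : ι → Set (Fin 3 → ℂ)) (τ : ι → (Fin 3 → ℂ) → X) (a : ι → (Fin 3 → ℂ) → ℂ), LocShf O →
  (∀ i, LPar O (D i) (τ i)) → (∀ i, ∀ v ∈ D i, AnalyticAt ℂ (a i) v ∧ a i v ≠ 0) →
  (∀ i j, ∀ v ∈ D i, ∀ v' ∈ D j, ∀ Ψ : (Fin 3 → ℂ) → (Fin 3 → ℂ), AnalyticAt ℂ Ψ v → Ψ v = v' →
    (∀ᶠ u in 𝓝 v, τ j (Ψ u) = τ i u) → a i v = a j v' * (fderiv ℂ Ψ v).det ^ m) →
  ∃ θ : CForm O 3 m (⋃ i, τ i '' D i), θ.IsGen ∧ ∀ i, ∀ v ∈ D i, ∀ c, IsCoord O c (τ i v) →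
    θ.val c (τ i v) * (fderiv ℂ (c ∘ τ i) v).det ^ m = a i v

/-- D18. Forms extend over isolated points. -/
def SpFext : Prop := ∀ (X : Type) [TopologicalSpace X] [T1Space X] (O : Shf X) (m : ℕ)
  (V V' : Set X) (x : X), LocShf O → IsOpen V' → x ∉ V → x ∈ V' → V' ⊆ insert x V →
  ∀ θ : CForm O 3 m V, θ.IsGen → ∃ θ' : CForm O 3 m V', θ'.IsGen ∧
    ∀ c, ∀ y ∈ V, y ∈ V' → θ'.val c y = θ.val c y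

/-- D19. The pull-back of a form is defined and holomorphic where the map goes to manifold
points; a pull-back that extends over the other points is holomorphic. -/
def SpPull : Prop := ∀ (X : Type) [TopologicalSpace X] (O : Shf X) (m : ℕ) (V : Set X)
  (θ : CForm O 3 m V) (B : Set (Fin 3 → ℂ)) (φ : (Fin 3 → ℂ) → X), LocShf O → IsOpen V →
  IsOpen B → (∀ b ∈ B, φ b ∈ V ∧ HolAt (stdO 3) O φ b) →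
  B ⊆ closure {b | b ∈ B ∧ IsReg O 3 (φ b)} →
  IsOpen {b | b ∈ B ∧ IsReg O 3 (φ b)} ∧
  ∃ h0 : (Fin 3 → ℂ) → ℂ, (∀ b ∈ B, IsReg O 3 (φ b) → AnalyticAt ℂ h0 b ∧
    ∀ c, IsCoord O c (φ b) → h0 b = θ.val c (φ b) * (fderiv ℂ (c ∘ φ) b).det ^ m) ∧
  ((∀ b0 ∈ B, ¬ IsReg O 3 (φ b0) → ∃ h1, AnalyticAt ℂ h1 b0 ∧
    ∀ᶠ b in 𝓝 b0, b ∈ B → IsReg O 3 (φ b) → h1 b = h0 b) → θ.PullHol B φ)

/-! ### Local analysis on `ℂ³` -/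

/-- D20. The pole lemma, with several functions. -/
def SpPole : Prop := ∀ (n : ℕ) (p : Fin n → ℂ) (a d : (Fin n → ℂ) → ℂ) (k : ℕ)
  (g : Fin k → (Fin n → ℂ) → ℂ), AnalyticAt ℂ a p → AnalyticAt ℂ d p →
  (¬ ∀ᶠ v in 𝓝 p, d v = 0) → (∀ i, AnalyticAt ℂ (g i) p) → (∀ i, ¬ ∀ᶠ v in 𝓝 p, g i v = 0) →
  (¬ ∃ h, AnalyticAt ℂ h p ∧ ∀ᶠ v in 𝓝 p, d v * h v = a v) → ∀ N ∈ 𝓝 p,
  ∃ q ∈ N, ∃ s, AnalyticAt ℂ s q ∧ s q = 0 ∧ fderiv ℂ s q ≠ 0 ∧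
    (∃ (e e' : ℕ) (u u' : (Fin n → ℂ) → ℂ), e < e' ∧ AnalyticAt ℂ u q ∧ u q ≠ 0 ∧
      AnalyticAt ℂ u' q ∧ u' q ≠ 0 ∧ (∀ᶠ v in 𝓝 q, a v = s v ^ e * u v) ∧
      ∀ᶠ v in 𝓝 q, d v = s v ^ e' * u' v) ∧
    ∀ i, ∃ (e : ℕ) (u : (Fin n → ℂ) → ℂ), AnalyticAt ℂ u q ∧ u q ≠ 0 ∧
      ∀ᶠ v in 𝓝 q, g i v = s v ^ e * u v

/-- D21. The logarithmic inequality. -/
def SpLog : Prop := ∀ (q : Fin 3 → ℂ) (s : (Fin 3 → ℂ) → ℂ) (f u : Fin 3 → (Fin 3 → ℂ) → ℂ)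
  (e : Fin 3 → ℕ), AnalyticAt ℂ s q → s q = 0 → fderiv ℂ s q ≠ 0 → (∀ k, AnalyticAt ℂ (f k) q) →
  (∀ k, AnalyticAt ℂ (u k) q) → (∀ k, ∀ᶠ v in 𝓝 q, f k v = s v ^ e k * u k v) →
  ∃ w, AnalyticAt ℂ w q ∧
    ∀ᶠ v in 𝓝 q, s v * (fderiv ℂ (fun x k => f k x) v).det = s v ^ (e 0 + e 1 + e 2) * w v

/-- D22. Extension of the pull-back at a quotient point. -/
def SpAge : Prop := ∀ (b e1 e2 : ℕ), AgeCond b e1 e2 → ∀ (b0 : Fin 3 → ℂ)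
  (P : Fin 3 → (Fin 3 → ℂ) → ℂ) (Q1 Q2 h0 : (Fin 3 → ℂ) → ℂ) (R : Set (Fin 3 → ℂ)), IsOpen R →
  (∀ k, AnalyticAt ℂ (P k) b0) → AnalyticAt ℂ Q1 b0 → AnalyticAt ℂ Q2 b0 →
  (∀ᶠ v in 𝓝 b0, Q1 v ^ b = P 1 v * P 0 v ^ e1) → (∀ᶠ v in 𝓝 b0, Q2 v ^ b = P 2 v * P 0 v ^ e2) →
  (∀ᶠ v in 𝓝 b0, v ∈ R → AnalyticAt ℂ h0 v ∧
    (b : ℂ) ^ (3 * b) * (P 0 v * P 1 v * P 2 v) ^ (b - 1) * h0 v =
      (fderiv ℂ (fun x k => P k x) v).det ^ b ∧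
    ∀ k, (∀ᶠ u in 𝓝 v, P k u = 0) → h0 v = 0) →
  ∃ h1, AnalyticAt ℂ h1 b0 ∧ ∀ᶠ v in 𝓝 b0, v ∈ R → h1 v = h0 v

/-- D23. Extension of the pull-back at the node. -/
def SpNodeExt : Prop := ∀ (b0 : Fin 3 → ℂ) (x : (Fin 3 → ℂ) → Fin 4 → ℂ) (h0 : (Fin 3 → ℂ) → ℂ)
  (R : Set (Fin 3 → ℂ)), IsOpen R → (∀ᶠ v in 𝓝 b0, v ∈ closure R) → AnalyticAt ℂ x b0 →
  (∀ᶠ v in 𝓝 b0, v ∈ R → x v ≠ 0 ∧ AnalyticAt ℂ h0 v ∧ ∀ i : Fin 4,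
    h0 v * x v i = sg i * (fderiv ℂ (fun u => prj i (x u)) v).det) →
  ∃ h1, AnalyticAt ℂ h1 b0 ∧ ∀ᶠ v in 𝓝 b0, v ∈ R → h1 v = h0 v

/-! ### Canonical singularities -/

/-- D24. Smooth points are canonical. -/
def SpCanS : Prop := ∀ (X : Type) [TopologicalSpace X] (O : Shf X) (x : X), LocShf O →
  Good O x → LocCan O x

/-- D25. Quotient points are canonical. -/
def SpCanQ : Prop := ∀ (X : Type) [TopologicalSpace X] [T1Space X] (O : Shf X) (b e1 e2 : ℕ)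
  (β : Fin 3 → ℤ) (x : X) (σ : (Fin 3 → ℂ) → X) (r : ℝ), LocShf O → LQ O 3 b β x σ r →
  AgeCond b e1 e2 → (∀ ζ : ℂ, ζ ^ b = 1 → ∀ k, ζ ^ β k = 1 → ζ = 1) →
  (b : ℤ) ∣ β 1 + e1 * β 0 → (b : ℤ) ∣ β 2 + e2 * β 0 → LocCan O x

/-- D26a. The four étale charts of the quadric cone. -/
def SpParXd : Prop := ∀ (X : Type) [TopologicalSpace X] (O : Shf X) (x : X)
  (σ : (Fin 4 → ℂ) → X) (r : ℝ), Node O x σ r →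
  (∀ i, LPar O (parD r i) (σ ∘ par i)) ∧
  (∀ i, ∀ u ∈ parD r i, par i u ∈ Qd ∧ par i u ≠ 0 ∧ AnalyticAt ℂ (par i) u ∧
    par i u i = u (piv i) ∧ prj i (par i u) = u) ∧
  (∀ v ∈ Qd, ‖v‖ < r → ∀ i, v i ≠ 0 → prj i v ∈ parD r i ∧ par i (prj i v) = v) ∧
  (∀ᶠ y in 𝓝 x, y ≠ x → Good O y) ∧ x ∈ closure {y | Good O y}

/-- D26b. The residue form: linear algebra. -/
def SpRes : Prop := ∀ (ξ : (Fin 3 → ℂ) → Fin 4 → ℂ) (b : Fin 3 → ℂ), AnalyticAt ℂ ξ b →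
  (∀ᶠ u in 𝓝 b, ξ u ∈ Qd) → ∀ i j : Fin 4,
  sg i * (fderiv ℂ (fun u => prj i (ξ u)) b).det * ξ b j =
    sg j * (fderiv ℂ (fun u => prj j (ξ u)) b).det * ξ b i

/-- D26c. The residue form on the smooth part of the cone. -/
def SpNodeP : Prop := ∀ (X : Type) [TopologicalSpace X] (O : Shf X) (x : X)
  (σ : (Fin 4 → ℂ) → X) (r : ℝ), LocShf O → Node O x σ r →
  ∃ θ : CForm O 3 1 (σ '' {v | v ∈ Qd ∧ ‖v‖ < r ∧ v ≠ 0}), θ.IsGen ∧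
    ∀ (φ : (Fin 3 → ℂ) → X) (b : Fin 3 → ℂ) (c : X → Fin 3 → ℂ) (ξ : (Fin 3 → ℂ) → Fin 4 → ℂ),
      AnalyticAt ℂ ξ b → ‖ξ b‖ < r → ξ b ≠ 0 →
      (∀ᶠ u in 𝓝 b, ξ u ∈ Qd ∧ σ (ξ u) = φ u) → IsCoord O c (φ b) → ∀ i : Fin 4,
      θ.val c (φ b) * (fderiv ℂ (c ∘ φ) b).det * ξ b i =
        sg i * (fderiv ℂ (fun u => prj i (ξ u)) b).det

/-- D27. The node is canonical. -/
def SpCanN : Prop := ∀ (X : Type) [TopologicalSpace X] [T1Space X] (O : Shf X) (x : X)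
  (σ : (Fin 4 → ℂ) → X) (r : ℝ), LocShf O → Node O x σ r → LocCan O x

/-- D28. The numerical conditions of the five types. -/
def SpNum : Prop := ∀ (b : ℕ) (β : Fin 4 → ℤ), QType b β → β 3 = 0 ∧
  (∀ ζ : ℂ, ζ ^ b = 1 → ∀ k : Fin 3, ζ ^ (![β 0, β 1, β 2] k) = 1 → ζ = 1) ∧
  ∃ e1 e2 : ℕ, AgeCond b e1 e2 ∧ (b : ℤ) ∣ β 1 + e1 * β 0 ∧ (b : ℤ) ∣ β 2 + e2 * β 0

/-! ### The two results -/

/-- `X` is a complex space. -/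
def SpXb (F : Flip) : Prop := IsSpace F.O

/-- The central fibre is reduced with canonical singularities. -/
def SpXd (F : Flip) : Prop := CanonFib F.O F.g 0 3

end Pool.Agent.KO
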