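import Pool.Agent.KO.X.Defs
import Pool.Agent.KO.Xa.Defs

/-!
# Blocks Xb, Xd: local quotient presentations (definitions)
-/

set_option autoImplicit false

namespace Pool.Agent.KO

open Set Filter Topology

/-- The diagonal action with integer weights. -/
noncomputable def dact {m : ℕ} (wt : Fin m → ℤ) (l : ℂ) (p : Fin m → ℂ) : Fin m → ℂ :=
  fun i => l ^ wt i * p i

/-- `X` is (near the points `π p`, `p ∈ M`) the quotient of `M ⊆ ℂ^m` by the action of `ℂ^*`. -/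
structure Pres {X : Type} [TopologicalSpace X] (O : Shf X) {m : ℕ} (wt : Fin m → ℤ)
    (M : Set (Fin m → ℂ)) (π : (Fin m → ℂ) → X) : Prop where
  inv : ∀ p ∈ M, ∀ l : ℂ, l ≠ 0 → dact wt l p ∈ M ∧ π (dact wt l p) = π p
  orb : ∀ p ∈ M, ∀ p' ∈ M, π p = π p' → ∃ l : ℂ, l ≠ 0 ∧ p' = dact wt l p
  nhds : ∀ p ∈ M, map π (𝓝[M] p) = 𝓝 (π p)
  hol : ∀ p ∈ M, ∀ f : X → ℂ, O f (π p) ↔
    ∃ H : (Fin m → ℂ) → ℂ, AnalyticAt ℂ H p ∧ ∀ᶠ p' in 𝓝[M] p, f (π p') = H p'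

/-- Local quotient presentation: near `x = σ 0` the space is the quotient, by `σ`, of the ball of
radius `r` in `ℂ^n` by the group of `b`-th roots of unity acting with weights `β`. -/
structure LQ {X : Type} [TopologicalSpace X] (O : Shf X) (n b : ℕ) (β : Fin n → ℤ) (x : X)
    (σ : (Fin n → ℂ) → X) (r : ℝ) : Prop where
  b_pos : 1 ≤ b
  r_pos : 0 < r
  base : σ 0 = x
  nhds : ∀ v ∈ Metric.ball (0 : Fin n → ℂ) r, map σ (𝓝 v) = 𝓝 (σ v)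
  fib : ∀ v ∈ Metric.ball (0 : Fin n → ℂ) r, ∀ v' ∈ Metric.ball (0 : Fin n → ℂ) r,
    (σ v = σ v' ↔ ∃ ζ : ℂ, ζ ^ b = 1 ∧ v' = dact β ζ v)
  hol : ∀ v ∈ Metric.ball (0 : Fin n → ℂ) r, ∀ f : X → ℂ, O f (σ v) ↔ AnalyticAt ℂ (f ∘ σ) v

/-- Étale parametrisations of dimension three. -/
structure LPar {X : Type} [TopologicalSpace X] (O : Shf X) (D : Set (Fin 3 → ℂ))
    (τ : (Fin 3 → ℂ) → X) : Prop where
  isOpen : IsOpen D
  nhds : ∀ v ∈ D, map τ (𝓝 v) = 𝓝 (τ v)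
  inj : ∀ v ∈ D, ∃ N ∈ 𝓝 v, InjOn τ N
  hol : ∀ v ∈ D, ∀ f : X → ℂ, O f (τ v) ↔ AnalyticAt ℂ (f ∘ τ) v

/-- Smooth points of dimension three. -/
def Good {X : Type} [TopologicalSpace X] (O : Shf X) (x : X) : Prop :=
  ∃ σ r, LQ O 3 1 0 x σ r

/-- The quadric cone. -/
def Qd : Set (Fin 4 → ℂ) := {v | v 0 * v 2 + v 1 * v 3 = 0}

/-- Local presentation by the quadric cone. -/
structure Node {X : Type} [TopologicalSpace X] (O : Shf X) (x : X) (σ : (Fin 4 → ℂ) → X)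
    (r : ℝ) : Prop where
  r_pos : 0 < r
  base : σ 0 = x
  nhds : ∀ v ∈ Qd, ‖v‖ < r → map σ (𝓝[Qd] v) = 𝓝 (σ v)
  inj : ∀ v ∈ Qd, ‖v‖ < r → ∀ v' ∈ Qd, ‖v'‖ < r → σ v = σ v' → v = v'
  hol : ∀ v ∈ Qd, ‖v‖ < r → ∀ f : X → ℂ, O f (σ v) ↔
    ∃ H : (Fin 4 → ℂ) → ℂ, AnalyticAt ℂ H v ∧ ∀ᶠ v' in 𝓝[Qd] v, f (σ v') = H v'

/-- Three of the four coordinates on the quadric cone: `x₀ x₁ x₃`, `x₀ x₁ x₂`, `x₂ x₁ x₃`,
`x₀ x₂ x₃`; they are local coordinates where `x i ≠ 0`. -/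
def prj (i : Fin 4) (x : Fin 4 → ℂ) : Fin 3 → ℂ :=
  ![![x 0, x 1, x 3], ![x 0, x 1, x 2], ![x 2, x 1, x 3], ![x 0, x 2, x 3]] i

/-- The place of `x i` in `prj i x`. -/
def piv (i : Fin 4) : Fin 3 := ![0, 1, 0, 2] i

/-- The inverse of `prj i`. -/
noncomputable def par (i : Fin 4) (u : Fin 3 → ℂ) : Fin 4 → ℂ :=
  ![![u 0, u 1, -(u 1 * u 2) / u 0, u 2], ![u 0, u 1, u 2, -(u 0 * u 2) / u 1],
    ![-(u 1 * u 2) / u 0, u 1, u 0, u 2], ![u 0, -(u 0 * u 1) / u 2, u 1, u 2]] i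

/-- The domain of `par i`. -/
def parD (r : ℝ) (i : Fin 4) : Set (Fin 3 → ℂ) := {u | u (piv i) ≠ 0 ∧ ‖par i u‖ < r}

/-- The sign of the residue form: it is `sg i · d(prj i x) / x i`. -/
def sg (i : Fin 4) : ℂ := ![1, -1, -1, -1] i

/-- The sheaf condition used below: being holomorphic near a point is a local property. -/
def LocShf {X : Type} [TopologicalSpace X] (O : Shf X) : Prop :=
  ∀ (f f' : X → ℂ) (x : X), f =ᶠ[𝓝 x] f' → O f x → O f' x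

/-- The second half of the definition of canonical singularities, at the point `x`. -/
def LocCan {X : Type} [TopologicalSpace X] (O : Shf X) (x : X) : Prop :=
  ∃ (r : ℕ) (V : Set X), 1 ≤ r ∧ IsOpen V ∧ x ∈ V ∧ ∃ θ : CForm O 3 r V, θ.IsGen ∧
    ∀ (B : Set (Fin 3 → ℂ)) (φ : (Fin 3 → ℂ) → X), IsOpen B →
      (∀ b ∈ B, φ b ∈ V ∧ HolAt (stdO 3) O φ b) → B ⊆ closure {b | b ∈ B ∧ IsReg O 3 (φ b)} →
      θ.PullHol B φ

/-- The numerical condition: the weights are those of a canonical quotient singularity. -/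
def AgeCond (b e1 e2 : ℕ) : Prop := 1 ≤ b ∧ ∀ n0 n1 n2 : ℕ, b ∣ n1 + e1 * n0 → b ∣ n2 + e2 * n0 →
  b ∣ n0 ∨ b ≤ n0 + n1 + n2

/-- The five quotient types of `X` along the central fibre; the last coordinate is `g`. -/
def QType (b : ℕ) (β : Fin 4 → ℤ) : Prop := (b = 1 ∧ β = 0) ∨ (b = 2 ∧ β = ![-1, -3, 1, 0]) ∨
  (b = 3 ∧ β = ![-1, -2, 1, 0]) ∨ (b = 5 ∧ β = ![1, 22, 33, 0]) ∨ (b = 11 ∧ β = ![1, 5, 6, 0])

/-- The cone without `Γ`. -/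
def MS1 : Set (Fin 6 → ℂ) := {p | p ∈ Cone ∧ p ∉ Gam}

/-- The flip chart, as a set. -/
def MS2 (F : Flip) : Set (Fin 5 → ℂ) := {q | q ∈ Dom F.ρ ∧ (q 0 ≠ 0 ∨ q 1 ≠ 0 ∨ q 2 ≠ 0)}

namespace Flip

variable (F : Flip)

/-- A point of the flip chart. -/
def q0 : F.M2 := ⟨![1, 0, 0, 0, 0], by
  refine ⟨?_, Or.inl (by simp)⟩
  show nA _ * nZ _ < F.ρ
  have h : nZ (![1, 0, 0, 0, 0] : Fin 5 → ℂ) = 0 := by
    simp [nZ]
  rw [h, mul_zero]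
  exact F.ρ_pos⟩

open Classical in
/-- The projection from the cone, as a function on `ℂ^6`. -/
noncomputable def p1 (p : Fin 6 → ℂ) : F.Sp :=
  if h : p ∈ Cone ∧ p ∉ Gam then F.pi1 ⟨p, h⟩ else F.pi2 F.q0

open Classical in
/-- The projection from the flip chart, as a function on `ℂ^5`. -/
noncomputable def p2 (q : Fin 5 → ℂ) : F.Sp :=
  if h : q ∈ Dom F.ρ ∧ (q 0 ≠ 0 ∨ q 1 ≠ 0 ∨ q 2 ≠ 0) then F.pi2 ⟨q, h⟩ else F.pi2 F.q0

end Flip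

end Pool.Agent.KO
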